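import Mathlib
import Pool.Agent.TH551.SU.Sst
import Pool.Agent.TH932.S2.Fix
import Pool.Agent.TH932.S2.Mov
import Pool.Agent.TH932.S2.SU
import Pool.Agent.TH932.S2.KP
import Pool.Agent.TH932.S2.BD

set_option autoImplicit false

/-!
# The boundedness theorem of project S2 without hypotheses
-/

namespace Pool.Agent.TH796.F4

open Pool.Agent.TH932.S2

theorem mov : MovStmt :=
  Pool.Agent.TH932.S2.Mov.mov (Pool.Agent.TH932.S2.Fix.fix Pool.Agent.TH551.SU.sst)

theorem bd : BDStmt :=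
  Pool.Agent.TH932.S2.BD.bd (Pool.Agent.TH932.S2.SU.su mov)
    (Pool.Agent.TH932.S2.KP.kp mov (Pool.Agent.TH932.S2.SU.su mov))

end Pool.Agent.TH796.F4
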