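import Mathlib
import Pool.Agent.TH932.Words

set_option autoImplicit false

/-!
# Special positions of words without short periods (port of helper932's `Words` to local
aperiodicity)
-/

namespace Pool.Agent.TH796.F4

open Pool.Agent.TH932.Words

variable {α : Type*} {w : ℕ → α} {l : ℕ}

/-- without special positions the word is eventually periodic -/
lemma exists_mark [Finite α] (hap : ∀ a b, a < b → b ≤ a + cx w l → ∃ k, w (a + k) ≠ w (b + k)) (hl : 1 ≤ l)
    (i : ℕ) : ∃ m, i ≤ m ∧ m ≤ i + cx w l ∧ Mk w l m := by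
  by_contra hcon
  push Not at hcon
  obtain ⟨a, b, hia, hab, hb, hE⟩ := exists_rep w l i
  have key : ∀ k, Eqv w l (a + k) (b + k) ∧ ¬ Mk w l (a + k) := by
    intro k
    induction k using Nat.strong_induction_on with
    | _ k ih =>
      have h2 : ¬ Mk w l (a + k) := by
        by_cases hk : k < b - a
        · exact hcon (a + k) (by omega) (by omega)
        · obtain ⟨h3, h4⟩ := ih (k - (b - a)) (by omega)
          have e1 : b + (k - (b - a)) = a + k := by omega
          rw [e1] at h3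
          intro h5
          exact h4 (Mk_congr h3.symm h5)
      refine ⟨?_, h2⟩
      rcases Nat.eq_zero_or_pos k with h0 | h0
      · subst h0; exact hE
      · obtain ⟨h3, h4⟩ := ih (k - 1) (by omega)
        have := step h4 h3
        have e1 : a + (k - 1) + 1 = a + k := by omega
        have e2 : b + (k - 1) + 1 = b + k := by omega
        rwa [e1, e2] at this
  obtain ⟨k, hk⟩ := hap a b hab (by omega)
  exact hk ((key k).1 0 (by omega))

section
variable [Finite α] (hap : ∀ a b, a < b → b ≤ a + cx w l → ∃ k, w (a + k) ≠ w (b + k)) (hl : 1 ≤ l)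
include hap hl

lemma nm_spec (i : ℕ) : i < nm w l i ∧ Mk w l (nm w l i) ∧ nm w l i ≤ i + 1 + cx w l ∧
    ∀ m, i < m → m < nm w l i → ¬ Mk w l m := by
  classical
  obtain ⟨m0, h1, h2, h3⟩ := exists_mark hap hl (i + 1)
  have h : ∃ m, i < m ∧ Mk w l m := ⟨m0, by omega, h3⟩
  have e : nm w l i = Nat.find h := by unfold nm; rw [dif_pos h]
  rw [e]
  refine ⟨(Nat.find_spec h).1, (Nat.find_spec h).2, ?_, ?_⟩
  · exact (Nat.find_min' h ⟨by omega, h3⟩).trans h2
  · intro m hm hlt hM
    exact Nat.find_min h hlt ⟨hm, hM⟩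

lemma nm_unique {i m : ℕ} (h1 : i < m) (h2 : Mk w l m) (h3 : ∀ k, i < k → k < m → ¬ Mk w l k) :
    nm w l i = m := by
  obtain ⟨a1, a2, _, a4⟩ := nm_spec hap hl i
  rcases lt_trichotomy (nm w l i) m with h | h | h
  · exact absurd a2 (h3 _ a1 h)
  · exact h
  · exact absurd h2 (a4 m h1 h)

/-- positions of the same type are followed by the same block -/
lemma type_block {i j : ℕ} (h : Eqv w (l + 1) i j) :
    nm w l j = j + (nm w l i - i) ∧ Eqv w (nm w l i - i) i j := by
  obtain ⟨a1, a2, _, a4⟩ := nm_spec hap hl i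
  set d := nm w l i - i with hd
  have hdi : i + d = nm w l i := by omega
  have key : ∀ k, 1 ≤ k → k ≤ d → Eqv w l (i + k) (j + k) := by
    intro k hk
    induction k with
    | zero => omega
    | succ k ih =>
      intro hkd
      rcases Nat.eq_zero_or_pos k with h0 | h0
      · subst h0; exact Eqv_succ h
      · have h5 := ih h0 (by omega)
        exact step (a4 (i + k) (by omega) (by omega)) h5
  constructor
  · apply nm_unique hap hl
    · omega
    · exact Mk_congr (key d (by omega) le_rfl) (by rw [hdi]; exact a2)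
    · intro k hk1 hk2 hM
      have e1 : j + (k - j) = k := by omega
      have h5 := key (k - j) (by omega) (by omega)
      rw [e1] at h5
      exact a4 (i + (k - j)) (by omega) (by omega) (Mk_congr h5.symm hM)
  · intro k hk
    rcases Nat.eq_zero_or_pos k with h0 | h0
    · subst h0; exact h 0 (by omega)
    · have := key k h0 hk.le 0 (by omega)
      simpa using this

end


/-- successive special positions of short types contain repetitions -/
lemma rep [Finite α] {w : ℕ → α} {l : ℕ}
    (hap : ∀ a b, a < b → b ≤ a + cx w l → ∃ k, w (a + k) ≠ w (b + k))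
    (hl : 1 ≤ l) {r : ℕ} {ty : ℕ → Fin r}
    (hty : ∀ i j, Mk w l i → Mk w l j → ty i = ty j → Eqv w (l + 1) i j)
    {g a B : ℕ} (ha : Mk w l a)
    (hsh : ∀ m, a ≤ m → m < B → Mk w l m → nm w l m ≤ m + g) {i : ℕ} (hai : a ≤ i)
    (hiB : i + (r + 1) * g < B) :
    ∃ s t, i ≤ s ∧ s < t ∧ t ≤ i + (r + 1) * g ∧ Eqv w l s t := by
  classical
  -- a special position close to `i`
  obtain ⟨m0, h1, h2, h3⟩ : ∃ m0, i ≤ m0 ∧ m0 ≤ i + g ∧ Mk w l m0 := by
    have hex : ∃ m, a ≤ m ∧ m ≤ i ∧ Mk w l m := ⟨a, le_rfl, hai, ha⟩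
    -- the greatest special position up to `i`
    obtain ⟨m', hm'1, hm'2, hm'3, hm'4⟩ : ∃ m', a ≤ m' ∧ m' ≤ i ∧ Mk w l m' ∧
        ∀ k, m' < k → k ≤ i → ¬ Mk w l k := by
      have hfin : ({m | a ≤ m ∧ m ≤ i ∧ Mk w l m} : Set ℕ).Finite :=
        (Set.finite_Iic i).subset fun m hm => hm.2.1
      obtain ⟨m', hm', hmax⟩ := hfin.exists_maximal ⟨a, le_rfl, hai, ha⟩
      refine ⟨m', hm'.1, hm'.2.1, hm'.2.2, fun k hk1 hk2 hM => ?_⟩
      have := hmax (y := k) ⟨by have := hm'.1; omega, hk2, hM⟩ hk1.le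
      omega
    rcases hm'2.eq_or_lt with h0 | h0
    · exact ⟨i, le_rfl, by omega, h0 ▸ hm'3⟩
    · obtain ⟨a1, a2, _, _⟩ := nm_spec hap hl m'
      refine ⟨nm w l m', ?_, ?_, a2⟩
      · by_contra hlt
        exact hm'4 _ a1 (by omega) a2
      · have := hsh m' hm'1 (by nlinarith) hm'3
        omega
  -- iterate
  have hit : ∀ k, k ≤ r → i ≤ (nm w l)^[k] m0 ∧ (nm w l)^[k] m0 ≤ i + (k + 1) * g ∧
      Mk w l ((nm w l)^[k] m0) := by
    intro k
    induction k with
    | zero => intro _; exact ⟨h1, by simpa using h2, h3⟩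
    | succ k ih =>
      intro hk
      obtain ⟨i1, i2, i3⟩ := ih (by omega)
      rw [Function.iterate_succ_apply']
      obtain ⟨a1, a2, _, _⟩ := nm_spec hap hl ((nm w l)^[k] m0)
      have hlt : (nm w l)^[k] m0 < B := by
        have : (k + 1) * g ≤ (r + 1) * g := by gcongr; omega
        omega
      have := hsh _ (by omega) hlt i3
      refine ⟨by omega, ?_, a2⟩
      calc nm w l ((nm w l)^[k] m0) ≤ (nm w l)^[k] m0 + g := this
        _ ≤ i + (k + 1) * g + g := by omega
        _ = i + (k + 1 + 1) * g := by ring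
  have hmono : StrictMono fun k => (nm w l)^[k] m0 := strictMono_nat_of_lt_succ fun k => by
    rw [Function.iterate_succ_apply']
    exact (nm_spec hap hl _).1
  obtain ⟨j, hj, k, hk, hjk, heq⟩ := Finset.exists_ne_map_eq_of_card_lt_of_maps_to
    (s := Finset.range (r + 1)) (t := (Finset.univ : Finset (Fin r)))
    (f := fun k => ty ((nm w l)^[k] m0)) (by simp) (fun x _ => by simp)
  rw [Finset.mem_range] at hj hk
  have aux : ∀ j k, j < k → k ≤ r → ty ((nm w l)^[j] m0) = ty ((nm w l)^[k] m0) →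
      ∃ s t, i ≤ s ∧ s < t ∧ t ≤ i + (r + 1) * g ∧ Eqv w l s t := by
    intro j k hjk hk heq
    obtain ⟨j1, _, j3⟩ := hit j (by omega)
    obtain ⟨_, k2, k3⟩ := hit k hk
    refine ⟨(nm w l)^[j] m0, (nm w l)^[k] m0, j1, hmono hjk, ?_,
      (hty _ _ j3 k3 heq).mono (Nat.le_succ l)⟩
    have : (k + 1) * g ≤ (r + 1) * g := by gcongr
    omega
  rcases lt_or_gt_of_ne hjk with h | h
  · exact aux j k h (by omega) heq
  · exact aux k j h (by omega) heq.symm

end Pool.Agent.TH796.F4
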