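import Mathlib
import Pool.Agent.TH932.Orb
import Pool.Agent.TH796.F4.W4

set_option autoImplicit false

/-!
# Finite segments of integer sequences driven by a word; shadow orbits

Port of helper932's `Orb` (project S2) to finite segments: the recursion and the injectivity are only
assumed up to `N`, the word is infinite and only locally aperiodic.
-/

namespace Pool.Agent.TH796.F4

open Pool.Agent.TH932.Words

/-- a segment without repetitions of a sequence of integers with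
`p y (k+1) = q ^ δ (w k) * y k + β (w k)` -/
structure Sy (p q M : ℕ) (α : Type*) where
  w : ℕ → α
  δ : α → ℕ
  β : α → ℤ
  y : ℕ → ℤ
  N : ℕ
  hp : 2 ≤ p
  hq : 2 ≤ q
  hpq : IsCoprime (q : ℤ) (p : ℤ)
  hpM : p ≤ M
  hqM : ∀ a, q ^ δ a ≤ M
  hβM : ∀ a, |β a| ≤ M
  hrec : ∀ k, k < N → (p : ℤ) * y (k + 1) = (q : ℤ) ^ δ (w k) * y k + β (w k)
  hinj : ∀ s t, s < t → t ≤ N → y s ≠ y t
  hap : ∀ a b, a < b → b ≤ a + N → ∃ k, w (a + k) ≠ w (b + k)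

variable {p q M : ℕ} {α : Type*} (Z : Sy p q M α)



namespace Sy

include Z in
lemma hM1 : 1 ≤ M := by have := Z.hp; have := Z.hpM; omega

include Z in
lemma p_ne : (p : ℤ) ≠ 0 := by have := Z.hp; omega
include Z in
lemma q_ne : (q : ℤ) ≠ 0 := by have := Z.hq; omega

/-- cumulative exponents -/
def oo (k : ℕ) : ℕ := ∑ i ∈ Finset.range k, Z.δ (Z.w i)

lemma oo_succ (k : ℕ) : Z.oo (k + 1) = Z.oo k + Z.δ (Z.w k) := by
  unfold oo; rw [Finset.sum_range_succ]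

lemma oo_mono : Monotone Z.oo := monotone_nat_of_le_succ fun k => by rw [oo_succ]; omega

/-- the constant term of a segment, by length -/
def Qr (i : ℕ) : ℕ → ℤ
  | 0 => 0
  | d + 1 => (q : ℤ) ^ Z.δ (Z.w (i + d)) * Qr i d + (p : ℤ) ^ d * Z.β (Z.w (i + d))

/-- the constant term of a segment -/
def Q (i j : ℕ) : ℤ := Z.Qr i (j - i)

lemma Q_self (i : ℕ) : Z.Q i i = 0 := by unfold Q; simp [Qr]

lemma Qr_add (i m d : ℕ) : Z.Qr i (m + d) = (q : ℤ) ^ (Z.oo (i + m + d) - Z.oo (i + m)) * Z.Qr i m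
    + (p : ℤ) ^ m * Z.Qr (i + m) d := by
  induction d with
  | zero => simp [Qr]
  | succ d ih =>
    have m1 := Z.oo_mono (Nat.le_add_right (i + m) d)
    have e1 : Z.oo (i + m + (d + 1)) - Z.oo (i + m)
        = Z.δ (Z.w (i + m + d)) + (Z.oo (i + m + d) - Z.oo (i + m)) := by
      rw [← add_assoc, oo_succ]; omega
    rw [e1, ← add_assoc, Qr, ih, Qr, pow_add, pow_add, show i + (m + d) = i + m + d by ring]
    ring

lemma Q_comp {i j k : ℕ} (hij : i ≤ j) (hjk : j ≤ k) :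
    Z.Q i k = (q : ℤ) ^ (Z.oo k - Z.oo j) * Z.Q i j + (p : ℤ) ^ (j - i) * Z.Q j k := by
  obtain ⟨m, rfl⟩ := Nat.exists_eq_add_of_le hij
  obtain ⟨d, rfl⟩ := Nat.exists_eq_add_of_le hjk
  unfold Q
  rw [show i + m + d - i = m + d by omega, show i + m - i = m by omega,
    show i + m + d - (i + m) = d by omega]
  exact Z.Qr_add i m d

lemma Q_succ (i : ℕ) : Z.Q i (i + 1) = Z.β (Z.w i) := by
  unfold Q
  rw [show i + 1 - i = 0 + 1 by omega, Qr, Qr]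
  simp

lemma yrel (i d : ℕ) (h : i + d ≤ Z.N) : (p : ℤ) ^ d * Z.y (i + d)
    = (q : ℤ) ^ (Z.oo (i + d) - Z.oo i) * Z.y i + Z.Qr i d := by
  induction d with
  | zero => simp [Qr]
  | succ d ih =>
    have h1 := ih (by omega)
    have h2 := Z.hrec (i + d) (by omega)
    have m1 := Z.oo_mono (Nat.le_add_right i d)
    have e1 : Z.oo (i + (d + 1)) - Z.oo i = Z.δ (Z.w (i + d)) + (Z.oo (i + d) - Z.oo i) := by
      rw [← add_assoc, oo_succ]; omega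
    rw [e1, Qr, pow_add, pow_succ, ← add_assoc]
    linear_combination (p : ℤ) ^ d * h2 + (q : ℤ) ^ Z.δ (Z.w (i + d)) * h1

lemma yrel' {i j : ℕ} (hij : i ≤ j) (h : j ≤ Z.N) : Z.Q i j
    = (p : ℤ) ^ (j - i) * Z.y j - (q : ℤ) ^ (Z.oo j - Z.oo i) * Z.y i := by
  obtain ⟨d, rfl⟩ := Nat.exists_eq_add_of_le hij
  have := Z.yrel i d h
  unfold Q
  rw [show i + d - i = d by omega]
  linarith

lemma word_dep {l i j : ℕ} (h : Eqv Z.w l i j) :
    Z.oo (i + l) - Z.oo i = Z.oo (j + l) - Z.oo j ∧ Z.Q i (i + l) = Z.Q j (j + l) := by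
  unfold Q
  rw [show i + l - i = l by omega, show j + l - j = l by omega]
  induction l with
  | zero => simp [Qr]
  | succ l ih =>
    obtain ⟨h1, h2⟩ := ih (h.mono (Nat.le_succ l))
    have h3 := h l (Nat.lt_succ_self l)
    have m1 := Z.oo_mono (Nat.le_add_right i l)
    have m2 := Z.oo_mono (Nat.le_add_right j l)
    constructor
    · rw [← add_assoc, ← add_assoc, oo_succ, oo_succ, h3]
      omega
    · rw [Qr, Qr, h2, h3]

lemma q_bound {i j : ℕ} (hij : i ≤ j) : q ^ (Z.oo j - Z.oo i) ≤ M ^ (j - i) := by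
  obtain ⟨k, rfl⟩ := Nat.exists_eq_add_of_le hij
  rw [Nat.add_sub_cancel_left]
  induction k with
  | zero => simp
  | succ k ih =>
    have m1 := Z.oo_mono (Nat.le_add_right i k)
    rw [← add_assoc, oo_succ, show Z.oo (i + k) + Z.δ (Z.w (i + k)) - Z.oo i
      = (Z.oo (i + k) - Z.oo i) + Z.δ (Z.w (i + k)) by omega, pow_add, pow_succ]
    exact Nat.mul_le_mul (ih (by omega)) (Z.hqM _)

include Z in
lemma p_bound (k : ℕ) : p ^ k ≤ M ^ k := Nat.pow_le_pow_left Z.hpM k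

lemma Q_bound {i j : ℕ} (hij : i ≤ j) : |Z.Q i j| ≤ (2 * M : ℤ) ^ (j - i) := by
  obtain ⟨k, rfl⟩ := Nat.exists_eq_add_of_le hij
  rw [Nat.add_sub_cancel_left]
  have hM := Z.hM1
  have hMz : (1 : ℤ) ≤ M := by exact_mod_cast hM
  induction k with
  | zero => simp [Q_self]
  | succ k ih =>
    rw [← add_assoc, Z.Q_comp (Nat.le_add_right i k) (Nat.le_succ _), Q_succ,
      Nat.add_sub_cancel_left]
    have e : Z.oo (i + k + 1) - Z.oo (i + k) = Z.δ (Z.w (i + k)) := by rw [oo_succ]; omega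
    rw [e]
    have h1 : |((q : ℤ)) ^ Z.δ (Z.w (i + k))| ≤ M := by
      rw [abs_of_nonneg (by positivity)]
      exact_mod_cast Z.hqM _
    have h2 : |((p : ℤ)) ^ k| ≤ (2 * M : ℤ) ^ k := by
      rw [abs_of_nonneg (by positivity)]
      have h3 : ((p : ℤ)) ^ k ≤ (M : ℤ) ^ k := by exact_mod_cast Z.p_bound k
      refine h3.trans ?_
      gcongr; linarith
    calc |(q : ℤ) ^ Z.δ (Z.w (i + k)) * Z.Q i (i + k) + (p : ℤ) ^ k * Z.β (Z.w (i + k))|
        ≤ |(q : ℤ) ^ Z.δ (Z.w (i + k)) * Z.Q i (i + k)|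
          + |(p : ℤ) ^ k * Z.β (Z.w (i + k))| := abs_add_le _ _
      _ ≤ M * (2 * M : ℤ) ^ k + (2 * M : ℤ) ^ k * M := by
          rw [abs_mul, abs_mul]
          have := ih (by omega)
          have := Z.hβM (Z.w (i + k))
          gcongr
      _ = (2 * M : ℤ) ^ (k + 1) := by ring

lemma y_bound (k : ℕ) (hk : k ≤ Z.N) : |Z.y k| + 1 ≤ (2 * M : ℤ) ^ k * (|Z.y 0| + 1) := by
  have hMz : (1 : ℤ) ≤ M := by exact_mod_cast Z.hM1
  induction k with
  | zero => simp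
  | succ k ih =>
    have h1 : |Z.y (k + 1)| ≤ |(p : ℤ) * Z.y (k + 1)| := by
      rw [abs_mul]
      have : (1 : ℤ) ≤ |(p : ℤ)| := Int.one_le_abs Z.p_ne
      nlinarith [abs_nonneg (Z.y (k + 1))]
    have h2 : |(p : ℤ) * Z.y (k + 1)| ≤ M * |Z.y k| + M := by
      rw [Z.hrec k (by omega)]
      refine (abs_add_le _ _).trans ?_
      rw [abs_mul]
      have h1 : |((q : ℤ)) ^ Z.δ (Z.w k)| ≤ M := by
        rw [abs_of_nonneg (by positivity)]
        exact_mod_cast Z.hqM _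
      have := Z.hβM (Z.w k)
      gcongr
    have h3 : |Z.y (k + 1)| + 1 ≤ 2 * M * (|Z.y k| + 1) := by
      nlinarith [abs_nonneg (Z.y k)]
    calc |Z.y (k + 1)| + 1 ≤ 2 * M * (|Z.y k| + 1) := h3
      _ ≤ 2 * M * ((2 * M : ℤ) ^ k * (|Z.y 0| + 1)) := by
          have := ih (by omega)
          gcongr
      _ = (2 * M : ℤ) ^ (k + 1) * (|Z.y 0| + 1) := by ring

include Z in
lemma cop (a b : ℕ) : IsCoprime ((p : ℤ) ^ a) ((q : ℤ) ^ b) :=
  (Z.hpq.symm.pow_left).pow_right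

lemma dvd_of_eqv {l s t : ℕ} (h : Eqv Z.w l s t) (hs : s + l ≤ Z.N) (ht : t + l ≤ Z.N) :
    (p : ℤ) ^ l ∣ Z.y t - Z.y s := by
  obtain ⟨h1, h2⟩ := Z.word_dep h
  have e1 : Z.Q s (s + l) = (p : ℤ) ^ l * Z.y (s + l)
    - (q : ℤ) ^ (Z.oo (s + l) - Z.oo s) * Z.y s := by
    rw [Z.yrel' (Nat.le_add_right s l) hs]; simp
  have e2 : Z.Q t (t + l) = (p : ℤ) ^ l * Z.y (t + l)
    - (q : ℤ) ^ (Z.oo (t + l) - Z.oo t) * Z.y t := by
    rw [Z.yrel' (Nat.le_add_right t l) ht]; simp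
  have h3 : (q : ℤ) ^ (Z.oo (s + l) - Z.oo s) * (Z.y t - Z.y s)
      = (p : ℤ) ^ l * (Z.y (t + l) - Z.y (s + l)) := by
    rw [e1, e2, ← h1] at h2
    linear_combination h2
  exact (Z.cop l _).dvd_of_dvd_mul_left ⟨_, h3⟩

/-- the size of shadows -/
def W (_Z : Sy p q M α) (h : ℕ) : ℤ := 3 * (2 * M : ℤ) ^ (2 * h)

lemma W_pos (h : ℕ) : 1 ≤ Z.W h := by
  have hMz : (1 : ℤ) ≤ M := by exact_mod_cast Z.hM1
  unfold W
  have : (1 : ℤ) ≤ (2 * M : ℤ) ^ (2 * h) := one_le_pow₀ (by linarith)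
  linarith

/-- a near repetition gives a rational shadow of small height -/
lemma shadow {l h i s t : ℕ} (hiN : i + h + l ≤ Z.N) (his : i ≤ s) (hst : s < t) (hth : t ≤ i + h)
    (hE : Eqv Z.w l s t) : ∃ m d : ℤ, d ≠ 0 ∧ |m| ≤ Z.W h ∧ |d| ≤ Z.W h ∧
      (p : ℤ) ^ l ∣ d * Z.y i - m ∧ d * Z.y i - m ≠ 0 := by
  have hMz : (1 : ℤ) ≤ M := by exact_mod_cast Z.hM1
  set A : ℤ := (q : ℤ) ^ (Z.oo t - Z.oo s) with hA
  set N : ℤ := (p : ℤ) ^ (t - s) with hN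
  set A' : ℤ := (q : ℤ) ^ (Z.oo s - Z.oo i) with hA'
  set N' : ℤ := (p : ℤ) ^ (s - i) with hN'
  have q1 : Z.Q s t = N * Z.y t - A * Z.y s := Z.yrel' hst.le (by omega)
  have q2 : Z.Q i s = N' * Z.y s - A' * Z.y i := Z.yrel' his (by omega)
  have hkey : (A - N) * A' * Z.y i - -((A - N) * Z.Q i s + N' * Z.Q s t)
      = N' * N * (Z.y t - Z.y s) := by
    rw [q1, q2]; ring
  have hne : Z.y t - Z.y s ≠ 0 := by
    rw [sub_ne_zero]
    intro h0
    exact Z.hinj s t hst (by omega) h0.symm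
  have hN0 : N ≠ 0 := pow_ne_zero _ Z.p_ne
  have hN0' : N' ≠ 0 := pow_ne_zero _ Z.p_ne
  have hA0' : A' ≠ 0 := pow_ne_zero _ Z.q_ne
  have hAN : A - N ≠ 0 := by
    intro h0
    have h1 : A = N := by linarith
    have h2 : IsCoprime N A := Z.cop _ _
    rw [h1] at h2
    have h3 : IsUnit N := isCoprime_self.1 h2
    have h4 : (1 : ℤ) < N := by
      rw [hN]
      apply one_lt_pow₀
      · have := Z.hp; exact_mod_cast (show 1 < p by omega)
      · omega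
    rcases Int.isUnit_iff.1 h3 with h5 | h5 <;> omega
  -- bounds
  have bA : |A| ≤ (M : ℤ) ^ h := by
    rw [hA, abs_of_nonneg (by positivity)]
    have h1 : (q ^ (Z.oo t - Z.oo s) : ℕ) ≤ M ^ h :=
      (Z.q_bound hst.le).trans (Nat.pow_le_pow_right Z.hM1 (by omega))
    exact_mod_cast h1
  have bA' : |A'| ≤ (M : ℤ) ^ h := by
    rw [hA', abs_of_nonneg (by positivity)]
    have h1 : (q ^ (Z.oo s - Z.oo i) : ℕ) ≤ M ^ h :=
      (Z.q_bound his).trans (Nat.pow_le_pow_right Z.hM1 (by omega))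
    exact_mod_cast h1
  have bN : |N| ≤ (M : ℤ) ^ h := by
    rw [hN, abs_of_nonneg (by positivity)]
    have h1 : (p ^ (t - s) : ℕ) ≤ M ^ h :=
      (Z.p_bound _).trans (Nat.pow_le_pow_right Z.hM1 (by omega))
    exact_mod_cast h1
  have bN' : |N'| ≤ (M : ℤ) ^ h := by
    rw [hN', abs_of_nonneg (by positivity)]
    have h1 : (p ^ (s - i) : ℕ) ≤ M ^ h :=
      (Z.p_bound _).trans (Nat.pow_le_pow_right Z.hM1 (by omega))
    exact_mod_cast h1
  have bQ1 : |Z.Q s t| ≤ (2 * M : ℤ) ^ h :=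
    (Z.Q_bound hst.le).trans (pow_le_pow_right₀ (by linarith) (by omega))
  have bQ2 : |Z.Q i s| ≤ (2 * M : ℤ) ^ h :=
    (Z.Q_bound his).trans (pow_le_pow_right₀ (by linarith) (by omega))
  have bM : (M : ℤ) ^ h ≤ (2 * M : ℤ) ^ h := by gcongr; linarith
  have bsub : |A - N| ≤ 2 * (2 * M : ℤ) ^ h := by
    refine (abs_sub _ _).trans ?_
    linarith
  have eW : Z.W h = 3 * ((2 * M : ℤ) ^ h * (2 * M : ℤ) ^ h) := by
    unfold W; rw [two_mul h, pow_add]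
  refine ⟨-((A - N) * Z.Q i s + N' * Z.Q s t), (A - N) * A', mul_ne_zero hAN hA0', ?_, ?_, ?_, ?_⟩
  · rw [abs_neg]
    calc |(A - N) * Z.Q i s + N' * Z.Q s t| ≤ |A - N| * |Z.Q i s| + |N'| * |Z.Q s t| := by
          refine (abs_add_le _ _).trans ?_
          rw [abs_mul, abs_mul]
      _ ≤ (2 * (2 * M : ℤ) ^ h) * (2 * M : ℤ) ^ h + (2 * M : ℤ) ^ h * (2 * M : ℤ) ^ h := by
          gcongr
          exact bN'.trans bM
      _ = Z.W h := by rw [eW]; ring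
  · rw [abs_mul]
    calc |A - N| * |A'| ≤ (2 * (2 * M : ℤ) ^ h) * (2 * M : ℤ) ^ h := by
          gcongr
          exact bA'.trans bM
      _ ≤ Z.W h := by
          rw [eW]
          have : (0 : ℤ) ≤ (2 * M : ℤ) ^ h * (2 * M : ℤ) ^ h := by positivity
          linarith
  · rw [hkey]
    exact Dvd.dvd.mul_left (Z.dvd_of_eqv hE (by omega) (by omega)) _
  · rw [hkey]
    exact mul_ne_zero (mul_ne_zero hN0' hN0) hne

/-- shadows are orbits -/
lemma shadow_step {l h i : ℕ} (hiN : i < Z.N) {m d m' d' : ℤ} (hm : |m| ≤ Z.W h) (hd : |d| ≤ Z.W h)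
    (hm' : |m'| ≤ Z.W h) (hd' : |d'| ≤ Z.W h) (h1 : (p : ℤ) ^ l ∣ d * Z.y i - m)
    (h2 : (p : ℤ) ^ l ∣ d' * Z.y (i + 1) - m') (hl : 3 * M * (Z.W h) ^ 2 < (p : ℤ) ^ l) :
    (p : ℤ) * m' * d = ((q : ℤ) ^ Z.δ (Z.w i) * m + Z.β (Z.w i) * d) * d' := by
  have hMz : (1 : ℤ) ≤ M := by exact_mod_cast Z.hM1
  have hWp := Z.W_pos h
  have hdvd : (p : ℤ) ^ l ∣ (p : ℤ) * m' * d
      - ((q : ℤ) ^ Z.δ (Z.w i) * m + Z.β (Z.w i) * d) * d' := by
    have e : (p : ℤ) * m' * d - ((q : ℤ) ^ Z.δ (Z.w i) * m + Z.β (Z.w i) * d) * d'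
        = (d * Z.y i - m) * ((q : ℤ) ^ Z.δ (Z.w i) * d')
          - (d' * Z.y (i + 1) - m') * (p * d) := by
      linear_combination (d * d') * Z.hrec i hiN
    rw [e]
    exact dvd_sub (Dvd.dvd.mul_right h1 _) (Dvd.dvd.mul_right h2 _)
  have hp1 : |(p : ℤ)| ≤ M := by
    rw [abs_of_nonneg (by positivity)]; exact_mod_cast Z.hpM
  have hq1 : |((q : ℤ)) ^ Z.δ (Z.w i)| ≤ M := by
    rw [abs_of_nonneg (by positivity)]
    exact_mod_cast Z.hqM _
  have hβ1 := Z.hβM (Z.w i)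
  have hbd : |(p : ℤ) * m' * d - ((q : ℤ) ^ Z.δ (Z.w i) * m + Z.β (Z.w i) * d) * d'|
      ≤ 3 * M * (Z.W h) ^ 2 := by
    calc _ ≤ |(p : ℤ) * m' * d| + |((q : ℤ) ^ Z.δ (Z.w i) * m + Z.β (Z.w i) * d) * d'| :=
          abs_sub _ _
      _ ≤ M * Z.W h * Z.W h + (M * Z.W h + M * Z.W h) * Z.W h := by
          apply add_le_add
          · rw [abs_mul, abs_mul]; gcongr
          · rw [abs_mul]
            gcongr
            refine (abs_add_le _ _).trans ?_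
            rw [abs_mul, abs_mul]
            gcongr
      _ = 3 * M * (Z.W h) ^ 2 := by ring
  by_contra hne
  have h3 := Int.le_of_dvd (abs_pos.2 (sub_ne_zero.2 hne)) ((dvd_abs _ _).2 hdvd)
  linarith

/-- shadows along an interval -/
lemma shadow_run {l h a b : ℕ} (hl1 : 1 ≤ l) (hbN : b + h + l ≤ Z.N) (hl : 3 * M * (Z.W h) ^ 2 < (p : ℤ) ^ l)
    (hrep : ∀ i, a ≤ i → i ≤ b → ∃ s t, i ≤ s ∧ s < t ∧ t ≤ i + h ∧ Eqv Z.w l s t) (hab : a ≤ b) :
    ∃ m d m' d' : ℤ, d ≠ 0 ∧ d' ≠ 0 ∧ |m| ≤ Z.W h ∧ |d| ≤ Z.W h ∧ |m'| ≤ Z.W h ∧ |d'| ≤ Z.W h ∧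
      (p : ℤ) ^ (b - a) * m' * d
        = ((q : ℤ) ^ (Z.oo b - Z.oo a) * m + Z.Q a b * d) * d' ∧
      (p : ℤ) ^ (b - a) ≤ Z.W h * (Z.W h * (|Z.y a| + 1)) := by
  classical
  have h1 : ∀ i, ∃ m d : ℤ, a ≤ i → i ≤ b → (d ≠ 0 ∧ |m| ≤ Z.W h ∧ |d| ≤ Z.W h ∧
      (p : ℤ) ^ l ∣ d * Z.y i - m ∧ d * Z.y i - m ≠ 0) := by
    intro i
    by_cases hi : a ≤ i ∧ i ≤ b
    · obtain ⟨s, t, h1, h2, h3, h4⟩ := hrep i hi.1 hi.2
      obtain ⟨m, d, h5⟩ := Z.shadow (by omega) h1 h2 h3 h4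
      exact ⟨m, d, fun _ _ => h5⟩
    · exact ⟨0, 0, fun h1 h2 => absurd ⟨h1, h2⟩ hi⟩
  choose m d hmd using h1
  have key : ∀ k, a + k ≤ b → (p : ℤ) ^ k * m (a + k) * d a
      = ((q : ℤ) ^ (Z.oo (a + k) - Z.oo a) * m a + Z.Q a (a + k) * d a) * d (a + k) := by
    intro k
    induction k with
    | zero => intro _; simp [Q_self]
    | succ k ih =>
      intro hk
      have h2 := ih (by omega)
      obtain ⟨c1, c2, c3, c4, _⟩ := hmd (a + k) (by omega) (by omega)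
      obtain ⟨_, e2, e3, e4, _⟩ := hmd (a + k + 1) (by omega) (by omega)
      have h3 := Z.shadow_step (by omega) c2 c3 e2 e3 c4 e4 hl
      have m1 := Z.oo_mono (Nat.le_add_right a k)
      have h4 : Z.Q a (a + k + 1) = (q : ℤ) ^ Z.δ (Z.w (a + k)) * Z.Q a (a + k)
          + (p : ℤ) ^ k * Z.β (Z.w (a + k)) := by
        rw [Z.Q_comp (Nat.le_add_right a k) (Nat.le_succ _), Q_succ, Nat.add_sub_cancel_left]
        congr 3
        rw [oo_succ]; omega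
      have h5 : (q : ℤ) ^ (Z.oo (a + k + 1) - Z.oo a)
          = (q : ℤ) ^ Z.δ (Z.w (a + k)) * (q : ℤ) ^ (Z.oo (a + k) - Z.oo a) := by
        rw [← pow_add]; congr 1; rw [oo_succ]; omega
      rw [← add_assoc, h4, h5]
      apply mul_left_cancel₀ c1
      rw [pow_succ]
      linear_combination ((p : ℤ) ^ k * d a) * h3
        + ((q : ℤ) ^ Z.δ (Z.w (a + k)) * d (a + k + 1)) * h2
  obtain ⟨a1, a2, a3, _, a5⟩ := hmd a le_rfl hab
  obtain ⟨b1, b2, b3, _, _⟩ := hmd b hab le_rfl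
  obtain ⟨k, rfl⟩ := Nat.exists_eq_add_of_le hab
  have hk := key k le_rfl
  rw [Nat.add_sub_cancel_left]
  refine ⟨m a, d a, m (a + k), d (a + k), a1, b1, a2, a3, b2, b3, hk, ?_⟩
  have e1 : (p : ℤ) ^ k * ((d (a + k) * Z.y (a + k) - m (a + k)) * d a)
      = (q : ℤ) ^ (Z.oo (a + k) - Z.oo a) * ((d a * Z.y a - m a) * d (a + k)) := by
    have e2 : Z.Q a (a + k) = (p : ℤ) ^ k * Z.y (a + k)
        - (q : ℤ) ^ (Z.oo (a + k) - Z.oo a) * Z.y a := by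
      rw [Z.yrel' (Nat.le_add_right a k) (by omega)]; simp
    rw [e2] at hk
    linear_combination -hk
  have e3 : (p : ℤ) ^ k ∣ (d a * Z.y a - m a) * d (a + k) :=
    (Z.cop k _).dvd_of_dvd_mul_left ⟨_, e1.symm⟩
  have e4 := Int.le_of_dvd (abs_pos.2 (mul_ne_zero a5 b1)) ((dvd_abs _ _).2 e3)
  refine e4.trans ?_
  have hWp := Z.W_pos h
  rw [abs_mul, mul_comm]
  have e5 : |d a * Z.y a - m a| ≤ Z.W h * (|Z.y a| + 1) := by
    refine (abs_sub _ _).trans ?_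
    rw [abs_mul]
    nlinarith [abs_nonneg (Z.y a)]
  gcongr

end Sy

end Pool.Agent.TH796.F4
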