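import Mathlib
import Pool.Agent.TH932.S2.Bsm
import Pool.Agent.TH796.F4.O4

set_option autoImplicit false

/-!
# Scales of low complexity, without a limiting frequency

Port of helper932's `S2/Bsm` (project S2) to families of finite segments.
-/

namespace Pool.Agent.TH796.F4

open Filter Topology Pool.Agent.TH932.Abs Pool.Agent.TH932.Germs Pool.Agent.TH932.Chi
open Pool.Agent.TH932.Words Pool.Agent.TH932.Scale Pool.Agent.TH932.S2

/-- a family of segments with scales of low complexity -/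
structure Ctx3 (p q M : ℕ) (α : Type*) where
  Z : ℕ → Sy p q M α
  l : ℕ → ℕ
  R : ℕ
  C : ℝ
  Cy : ℝ
  hp : 2 ≤ p
  hq : 2 ≤ q
  hpq : IsCoprime (q : ℤ) (p : ℤ)
  hpM : p ≤ M
  hl : Tendsto l atTop atTop
  hl1 : ∀ n, 1 ≤ l n
  hcx : ∀ n, (cx (Z n).w (l n) : ℝ) ≤ C * l n
  hR : ∀ n, 2 * cx (Z n).w (l n + 1) ≤ R + 2 * cx (Z n).w (l n)
  hD : ∀ n, cx (Z n).w (l n) ≤ (Z n).N
  hD2 : ∀ K : ℝ, ∀ᶠ n in (UU : Filter ℕ), K * l n ≤ (Z n).N
  hCy : 0 ≤ Cy
  hy0 : ∀ n, Real.log (|((Z n).y 0 : ℝ)| + 1) ≤ Cy * l n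

namespace Ctx3

variable {p q M : ℕ} {α : Type*} (X : Ctx3 p q M α)

/-- the scale -/
noncomputable def L (n : ℕ) : ℝ := X.l n

lemma tL : Tendsto X.L atTop atTop := tendsto_natCast_atTop_atTop.comp X.hl

lemma hC : 0 ≤ X.C := by
  have h1 := X.hcx 0
  have h2 : (1 : ℝ) ≤ X.l 0 := by exact_mod_cast X.hl1 0
  by_contra h
  push Not at h
  have h3 : (0 : ℝ) ≤ cx (X.Z 0).w (X.l 0) := by positivity
  nlinarith

include X in
lemma hM1 : 1 ≤ M := by have := X.hp; have := X.hpM; omega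

lemma hap (n : ℕ) : ∀ a b, a < b → b ≤ a + cx (X.Z n).w (X.l n) →
    ∃ k, (X.Z n).w (a + k) ≠ (X.Z n).w (b + k) := fun a b h1 h2 =>
  (X.Z n).hap a b h1 (by have := X.hD n; omega)

/-- the ratio bounding the exponents -/
noncomputable def cM (_X : Ctx3 p q M α) : ℝ := Real.log M / Real.log q

lemma cM_nonneg : 0 ≤ X.cM := by
  have h1 : 0 ≤ Real.log M := Real.log_nonneg (by exact_mod_cast X.hM1)
  have h2 : 0 ≤ Real.log q := Real.log_nonneg (by
    have := X.hq
    exact_mod_cast (by omega : 1 ≤ q))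
  unfold cM; positivity

lemma oo_le (n : ℕ) {a b : ℕ} (hab : a ≤ b) :
    (((X.Z n).oo b - (X.Z n).oo a : ℕ) : ℝ) ≤ X.cM * ((b : ℝ) - a) := by
  have hlq : 0 < Real.log q := Real.log_pos (by exact_mod_cast X.hq)
  have hq1 : (0 : ℝ) < q := by have := X.hq; positivity
  have h1 : ((q : ℝ)) ^ ((X.Z n).oo b - (X.Z n).oo a) ≤ (M : ℝ) ^ (b - a) := by
    exact_mod_cast (X.Z n).q_bound hab
  have h2 := Real.log_le_log (by positivity) h1
  rw [Real.log_pow, Real.log_pow, Nat.cast_sub hab] at h2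
  unfold cM
  rw [div_mul_eq_mul_div, le_div_iff₀ hlq]
  linarith

/-- the exponents of a segment have a standard part -/
lemma near_seg {a b : ℕ → ℕ} {A t : ℝ} (hab : ∀ᶠ n in (UU : Filter ℕ), a n ≤ b n)
    (hb : ∀ᶠ n in (UU : Filter ℕ), (b n : ℝ) ≤ A * X.L n)
    (ht : near X.L (fun n => (b n : ℝ) - a n) t) :
    ∃ o, o ≤ X.cM * t ∧
      near X.L (fun n => (((X.Z n).oo (b n) - (X.Z n).oo (a n) : ℕ) : ℝ)) o := by
  obtain ⟨o, _, _, ho⟩ := exists_st (L := X.L) X.tL
    (a := fun n => (((X.Z n).oo (b n) - (X.Z n).oo (a n) : ℕ) : ℝ)) (A := X.cM * A) (by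
      filter_upwards [hab, hb] with n h1 h2
      refine ⟨by positivity, ?_⟩
      have h3 := X.oo_le n h1
      have h4 := X.cM_nonneg
      have h5 : (0 : ℝ) ≤ a n := by positivity
      calc (((X.Z n).oo (b n) - (X.Z n).oo (a n) : ℕ) : ℝ) ≤ X.cM * ((b n : ℝ) - a n) := h3
        _ ≤ X.cM * (A * X.L n) := by gcongr; linarith
        _ = X.cM * A * X.L n := by ring)
  refine ⟨o, ?_, ho⟩
  refine near_le X.tL ho (ht.const_mul X.tL X.cM) ?_
  filter_upwards [hab] with n h1 using X.oo_le n h1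

/-- the character -/
noncomputable def χ (g : ℝ × ℝ) : GG := ch2 X.tL X.hp X.hq g

/-- the constant field -/
noncomputable abbrev K : Subfield GG := KK X.L X.tL

/-- germ of a quotient of powers -/
noncomputable def NA (a b : ℕ → ℕ) : GG := gm fun n =>
  (p : ℚ) ^ (b n - a n) / (q : ℚ) ^ ((X.Z n).oo (b n) - (X.Z n).oo (a n))
/-- germ of a constant term -/
noncomputable def QA (a b : ℕ → ℕ) : GG := gm fun n =>
  ((X.Z n).Q (a n) (b n) : ℚ) / (q : ℚ) ^ ((X.Z n).oo (b n) - (X.Z n).oo (a n))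
/-- germ of a term -/
noncomputable def gY (a : ℕ → ℕ) : GG := gm fun n => ((X.Z n).y (a n) : ℚ)

include X in
lemma q0 : (q : ℚ) ≠ 0 := by
  have := X.hq
  have : q ≠ 0 := by omega
  exact_mod_cast this

include X in
lemma p0 : (p : ℚ) ≠ 0 := by
  have := X.hp
  have : p ≠ 0 := by omega
  exact_mod_cast this

lemma rel {a b : ℕ → ℕ} (hab : ∀ᶠ n in (UU : Filter ℕ), a n ≤ b n)
    (hb : ∀ᶠ n in (UU : Filter ℕ), b n ≤ (X.Z n).N) :
    X.NA a b * X.gY b = X.gY a + X.QA a b := by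
  unfold NA gY QA
  rw [gm_mul, gm_add, gm_eq]
  filter_upwards [hab, hb] with n hab hb
  have h1 := X.q0
  have h2 : ((X.Z n).Q (a n) (b n) : ℚ) = (p : ℚ) ^ (b n - a n) * (X.Z n).y (b n)
      - (q : ℚ) ^ ((X.Z n).oo (b n) - (X.Z n).oo (a n)) * (X.Z n).y (a n) := by
    rw [(X.Z n).yrel' hab hb]; push_cast; ring
  rw [h2]
  field_simp
  ring

lemma comp {a b c : ℕ → ℕ} (hab : ∀ᶠ n in (UU : Filter ℕ), a n ≤ b n)
    (hbc : ∀ᶠ n in (UU : Filter ℕ), b n ≤ c n) :
    X.QA a c = X.QA a b + X.NA a b * X.QA b c := by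
  unfold NA QA
  rw [gm_mul, gm_add, gm_eq]
  filter_upwards [hab, hbc] with n h1 h2
  rw [(X.Z n).Q_comp h1 h2]
  have m1 := (X.Z n).oo_mono h1
  have m2 := (X.Z n).oo_mono h2
  have e : (q : ℚ) ^ ((X.Z n).oo (c n) - (X.Z n).oo (a n))
      = (q : ℚ) ^ ((X.Z n).oo (c n) - (X.Z n).oo (b n)) * (q : ℚ) ^ ((X.Z n).oo (b n) - (X.Z n).oo (a n)) := by
    rw [← pow_add]; congr 1; omega
  have h3 := X.q0
  push_cast
  rw [e]
  field_simp

lemma NA_const {a b : ℕ → ℕ} {t o : ℝ} (hab : ∀ᶠ n in (UU : Filter ℕ), a n ≤ b n)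
    (ht : near X.L (fun n => (b n : ℝ) - a n) t)
    (ho : near X.L (fun n => (((X.Z n).oo (b n) - (X.Z n).oo (a n) : ℕ) : ℝ)) o) :
    ∃ κ : X.K, κ ≠ 0 ∧ X.NA a b = (κ : GG) * X.χ (t, o) := by
  obtain ⟨κ, h0, h1⟩ := exists_const2 X.tL X.hp X.hq t o
    (fun n => ((b n - a n : ℕ) : ℤ)) (fun n => (((X.Z n).oo (b n) - (X.Z n).oo (a n) : ℕ) : ℤ)) (by
      intro ε hε
      filter_upwards [ht ε hε, hab] with n h2 h3
      rw [Int.cast_natCast, Nat.cast_sub h3]; exact h2) (by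
      intro ε hε
      filter_upwards [ho ε hε] with n h2
      rw [Int.cast_natCast]; exact h2)
  refine ⟨κ, h0, ?_⟩
  unfold NA χ
  rw [← h1]
  simp only [zpow_natCast]

/-- constant terms of negligible segments are constants -/
lemma QA_const {a b : ℕ → ℕ} (hab : ∀ᶠ n in (UU : Filter ℕ), a n ≤ b n)
    (ht : near X.L (fun n => (b n : ℝ) - a n) 0) : X.QA a b ∈ X.K := by
  have hM := X.hM1
  have hMr : (1 : ℝ) ≤ M := by exact_mod_cast hM
  refine ⟨fun n => (X.Z n).Q (a n) (b n), fun n => (q : ℤ) ^ ((X.Z n).oo (b n) - (X.Z n).oo (a n)),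
    ?_, ?_, ?_, ?_⟩
  · apply negl_of_le X.tL (M := 2 * M) (by linarith) ht one_pos
    filter_upwards [hab] with n hn
    have h1 : (|(X.Z n).Q (a n) (b n)| : ℝ) ≤ (2 * M : ℝ) ^ (b n - a n) := by
      exact_mod_cast (X.Z n).Q_bound hn
    rw [one_mul]
    refine h1.trans (le_of_eq ?_)
    rw [← Real.rpow_natCast, Real.rpow_def_of_pos (by linarith), Nat.cast_sub hn]
  · apply negl_of_le X.tL (M := M) hMr ht one_pos
    filter_upwards [hab] with n hn
    have h1 : ((q : ℝ)) ^ ((X.Z n).oo (b n) - (X.Z n).oo (a n)) ≤ (M : ℝ) ^ (b n - a n) := by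
      exact_mod_cast (X.Z n).q_bound hn
    rw [one_mul]
    push_cast
    rw [abs_of_nonneg (by positivity)]
    refine h1.trans (le_of_eq ?_)
    rw [← Real.rpow_natCast, Real.rpow_def_of_pos (by linarith), Nat.cast_sub hn]
  · refine Eventually.of_forall fun n => ?_
    have := (X.Z n).q_ne
    positivity
  · unfold QA
    push_cast
    rfl

/-! ## types -/

variable [Finite α]

/-- the types -/
noncomputable def ty (n : ℕ) : ℕ → Fin (X.R + 1) := (exists_ty (X.Z n).w (X.l n) (X.hR n)).choose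

lemma hty (n i j : ℕ) (hi : Mk (X.Z n).w (X.l n) i) (hj : Mk (X.Z n).w (X.l n) j)
    (h : X.ty n i = X.ty n j) : Eqv (X.Z n).w (X.l n + 1) i j :=
  (exists_ty (X.Z n).w (X.l n) (X.hR n)).choose_spec i j hi hj h

/-- special positions -/
def smk (n i : ℕ) : Prop := Mk (X.Z n).w (X.l n) i
/-- the next special position -/
noncomputable def nx (n i : ℕ) : ℕ := nm (X.Z n).w (X.l n) i

lemma nx_spec (n i : ℕ) : i < X.nx n i ∧ X.smk n (X.nx n i) ∧
    X.nx n i ≤ i + 1 + cx (X.Z n).w (X.l n) ∧ ∀ m, i < m → m < X.nx n i → ¬ X.smk n m :=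
  nm_spec (X.hap n) (X.hl1 n) i

/-- length of a type -/
noncomputable def len (n : ℕ) (s : Fin (X.R + 1)) : ℕ := by
  classical
  exact if h : ∃ i, X.smk n i ∧ X.ty n i = s then X.nx n h.choose - h.choose else 0
/-- constant term of a type -/
noncomputable def Qs (n : ℕ) (s : Fin (X.R + 1)) : ℤ := by
  classical
  exact if h : ∃ i, X.smk n i ∧ X.ty n i = s then (X.Z n).Q h.choose (X.nx n h.choose) else 0
/-- exponent of a type -/
noncomputable def os (n : ℕ) (s : Fin (X.R + 1)) : ℕ := by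
  classical
  exact if h : ∃ i, X.smk n i ∧ X.ty n i = s then (X.Z n).oo (X.nx n h.choose) - (X.Z n).oo h.choose else 0

lemma type_spec {n i : ℕ} (hi : X.smk n i) : X.nx n i = i + X.len n (X.ty n i) ∧
    (X.Z n).Q i (X.nx n i) = X.Qs n (X.ty n i) ∧
    (X.Z n).oo (X.nx n i) - (X.Z n).oo i = X.os n (X.ty n i) := by
  classical
  have h : ∃ j, X.smk n j ∧ X.ty n j = X.ty n i := ⟨i, hi, rfl⟩
  have h1 := h.choose_spec
  have h2 := X.hty n _ i h1.1 hi h1.2
  obtain ⟨h3, h4⟩ := type_block (X.hap n) (X.hl1 n) h2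
  obtain ⟨h5, _, _, _⟩ := X.nx_spec n h.choose
  obtain ⟨h6, h7⟩ := (X.Z n).word_dep h4
  have e1 : h.choose + (nm (X.Z n).w (X.l n) h.choose - h.choose) = X.nx n h.choose := by
    unfold nx at *; omega
  have e2 : i + (nm (X.Z n).w (X.l n) h.choose - h.choose) = X.nx n i := by
    unfold nx; omega
  rw [e1, e2] at h6 h7
  refine ⟨?_, ?_, ?_⟩
  · unfold len; rw [dif_pos h, ← e2]; rfl
  · unfold Qs; rw [dif_pos h]; exact h7.symm
  · unfold os; rw [dif_pos h]; exact h6.symm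

lemma len_le (n : ℕ) (s : Fin (X.R + 1)) : (X.len n s : ℝ) ≤ (X.C + 1) * X.L n := by
  classical
  have hC := X.hC
  unfold len
  split_ifs with h
  · obtain ⟨h1, _, h3, _⟩ := X.nx_spec n h.choose
    have h4 := X.hcx n
    have h5 : (1 : ℝ) ≤ X.l n := by exact_mod_cast X.hl1 n
    have h6 : ((X.nx n h.choose - h.choose : ℕ) : ℝ) ≤ 1 + cx (X.Z n).w (X.l n) := by
      exact_mod_cast (by omega : X.nx n h.choose - h.choose ≤ 1 + cx (X.Z n).w (X.l n))
    unfold L
    nlinarith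
  · unfold L
    simp only [Nat.cast_zero]
    positivity

lemma Qs_le (n : ℕ) (s : Fin (X.R + 1)) : |(X.Qs n s : ℝ)| ≤ (2 * M : ℝ) ^ (X.len n s) := by
  classical
  unfold Qs len
  split_ifs with h
  · obtain ⟨h1, _, h3, _⟩ := X.nx_spec n h.choose
    exact_mod_cast (X.Z n).Q_bound h1.le
  · simp

lemma os_le (n : ℕ) (s : Fin (X.R + 1)) :
    (q : ℝ) ^ (X.os n s) ≤ (M : ℝ) ^ (X.len n s) := by
  classical
  unfold os len
  split_ifs with h
  · obtain ⟨h1, _, h3, _⟩ := X.nx_spec n h.choose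
    exact_mod_cast (X.Z n).q_bound h1.le
  · simp

lemma exists_c (s : Fin (X.R + 1)) : ∃ t, 0 ≤ t ∧ t ≤ X.C + 1 ∧
    near X.L (fun n => (X.len n s : ℝ)) t :=
  exists_st X.tL (Eventually.of_forall fun n => ⟨by positivity, X.len_le n s⟩)

/-- asymptotic length of a type -/
noncomputable def c (s : Fin (X.R + 1)) : ℝ := (X.exists_c s).choose
lemma c_nonneg (s : Fin (X.R + 1)) : 0 ≤ X.c s := (X.exists_c s).choose_spec.1
lemma c_near (s : Fin (X.R + 1)) : near X.L (fun n => (X.len n s : ℝ)) (X.c s) :=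
  (X.exists_c s).choose_spec.2.2

lemma exists_cmin : ∃ t : ℝ, 0 < t ∧ ∀ s, 0 < X.c s → t ≤ X.c s := by
  classical
  by_cases h : (Finset.univ.filter fun s => 0 < X.c s).Nonempty
  · obtain ⟨s, hs, hmin⟩ := Finset.exists_min_image _ X.c h
    refine ⟨X.c s, (Finset.mem_filter.1 hs).2, fun s' hs' => hmin s' ?_⟩
    exact Finset.mem_filter.2 ⟨Finset.mem_univ _, hs'⟩
  · refine ⟨1, one_pos, fun s hs => ?_⟩
    exact absurd ⟨s, Finset.mem_filter.2 ⟨Finset.mem_univ _, hs⟩⟩ h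

/-- least long length -/
noncomputable def cmin : ℝ := X.exists_cmin.choose
lemma cmin_pos : 0 < X.cmin := X.exists_cmin.choose_spec.1
lemma cmin_le (s : Fin (X.R + 1)) (hs : 0 < X.c s) : X.cmin ≤ X.c s :=
  X.exists_cmin.choose_spec.2 s hs

/-- long special positions -/
def lm (n i : ℕ) : Prop := X.smk n i ∧ 0 < X.c (X.ty n i)

/-- the maximal length of a short type -/
noncomputable def gmax (n : ℕ) : ℕ := by
  classical
  exact ∑ s : Fin (X.R + 1), if 0 < X.c s then 0 else X.len n s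

lemma gmax_near : near X.L (fun n => (X.gmax n : ℝ)) 0 := by
  classical
  have h1 : ∀ T : Finset (Fin (X.R + 1)), near X.L
      (fun n => ((∑ s ∈ T, if 0 < X.c s then 0 else X.len n s : ℕ) : ℝ)) 0 := by
    intro T
    induction T using Finset.induction_on with
    | empty => simpa using near_const X.tL 0
    | insert a T ha ih =>
      have h2 : near X.L (fun n => ((if 0 < X.c a then 0 else X.len n a : ℕ) : ℝ)) 0 := by
        by_cases h : 0 < X.c a
        · simp only [if_pos h]; simpa using near_const X.tL 0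
        · simp only [if_neg h]
          have h3 := X.c_near a
          have : X.c a = 0 := le_antisymm (not_lt.1 h) (X.c_nonneg a)
          rwa [this] at h3
      have h3 := h2.add ih
      rw [add_zero] at h3
      refine h3.congr (Eventually.of_forall fun n => ?_)
      rw [Finset.sum_insert ha]
      push_cast
      rfl
  exact h1 Finset.univ

lemma short_le {n i : ℕ} (hi : X.smk n i) (hs : ¬ 0 < X.c (X.ty n i)) :
    X.nx n i ≤ i + X.gmax n := by
  classical
  rw [(X.type_spec hi).1]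
  have : X.len n (X.ty n i) ≤ X.gmax n := by
    unfold gmax
    have h1 : (if 0 < X.c (X.ty n i) then 0 else X.len n (X.ty n i)) = X.len n (X.ty n i) := if_neg hs
    rw [← h1]
    exact Finset.single_le_sum (f := fun s => if 0 < X.c s then 0 else X.len n s)
      (fun i _ => Nat.zero_le _) (Finset.mem_univ _)
  omega

/-- the window for repetitions -/
noncomputable def hh (n : ℕ) : ℕ := (X.R + 2) * X.gmax n

lemma hh_near : near X.L (fun n => (X.hh n : ℝ)) 0 := by
  have := X.gmax_near.const_mul X.tL (X.R + 2)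
  rw [mul_zero] at this
  refine this.congr (Eventually.of_forall fun n => ?_)
  unfold hh; push_cast; ring

lemma reps {n a B : ℕ} (ha : X.smk n a) (hsh : ∀ m, a ≤ m → m < B → ¬ X.lm n m) {i : ℕ}
    (hai : a ≤ i) (hiB : i + X.hh n < B) :
    ∃ s t, i ≤ s ∧ s < t ∧ t ≤ i + X.hh n ∧ Eqv (X.Z n).w (X.l n) s t := by
  refine rep (X.hap n) (X.hl1 n) (r := X.R + 1) (ty := X.ty n) (X.hty n) (g := X.gmax n)
    (a := a) (B := B) ha ?_ hai hiB
  intro m h1 h2 h3
  apply X.short_le h3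
  intro h4
  exact hsh m h1 h2 ⟨h3, h4⟩

/-- positions up to a multiple of the scale are in the window -/
lemma win (A : ℝ) : ∀ᶠ n in (UU : Filter ℕ), ∀ k : ℕ, (k : ℝ) ≤ A * X.L n →
    k + X.hh n + X.l n + 1 ≤ (X.Z n).N := by
  filter_upwards [X.hh_near 1 one_pos, X.hD2 (A + 3)] with n h1 h2 k hk
  have h3 := (abs_le.1 h1).2
  simp only [zero_mul, sub_zero, one_mul] at h3
  have h4 : (1 : ℝ) ≤ X.l n := by exact_mod_cast X.hl1 n
  have h5 : X.L n = X.l n := rfl
  rw [h5] at hk h3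
  have h6 : ((k + X.hh n + X.l n + 1 : ℕ) : ℝ) ≤ (X.Z n).N := by
    push_cast
    linarith
  exact_mod_cast h6

/-- the size condition for shadows -/
lemma size_ok : ∀ᶠ n in (UU : Filter ℕ),
    3 * M * ((X.Z n).W (X.hh n)) ^ 2 < (p : ℤ) ^ (X.l n) := by
  have hM := X.hM1
  have hMr : (1 : ℝ) ≤ M := by exact_mod_cast hM
  have hlp : 0 < Real.log p := Real.log_pos (by exact_mod_cast X.hp)
  have h1 := (X.hh_near.const_mul X.tL (4 * Real.log (2 * M))).add
    (near_const X.tL (Real.log (27 * M)))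
  filter_upwards [h1 (Real.log p / 2) (by positivity),
    ev_of_atTop (X.tL.eventually_ge_atTop 1)] with n h2 h3
  have h4 := (abs_le.1 h2).2
  simp only [mul_zero, zero_add, zero_mul, sub_zero] at h4
  have h5 : ((3 * M * ((X.Z n).W (X.hh n)) ^ 2 : ℤ) : ℝ)
      = 27 * M * (2 * M : ℝ) ^ (4 * X.hh n) := by
    unfold Sy.W
    push_cast
    rw [show 4 * X.hh n = 2 * X.hh n * 2 by ring, pow_mul _ (2 * X.hh n) 2]
    generalize (2 * (M : ℝ)) ^ (2 * X.hh n) = u
    ring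
  have h6 : ((3 * M * ((X.Z n).W (X.hh n)) ^ 2 : ℤ) : ℝ) < (((p : ℤ) ^ (X.l n) : ℤ) : ℝ) := by
    rw [h5]
    push_cast
    have hp0 : (0 : ℝ) < p := by
      have := X.hp
      exact_mod_cast (show 0 < p by omega)
    have e1 : (27 * M : ℝ) * (2 * M : ℝ) ^ (4 * X.hh n)
        = Real.exp (Real.log (27 * M) + Real.log (2 * M) * ((4 * X.hh n : ℕ) : ℝ)) := by
      rw [Real.exp_add, Real.exp_log (by positivity), ← Real.rpow_natCast,
        Real.rpow_def_of_pos (by positivity)]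
    rw [e1, ← Real.rpow_natCast, Real.rpow_def_of_pos hp0]
    apply Real.exp_lt_exp.2
    push_cast
    have : X.L n = X.l n := rfl
    rw [this] at h4 h3
    nlinarith
  exact_mod_cast h6

end Ctx3

end Pool.Agent.TH796.F4
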