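import Mathlib
import Pool.Agent.TH796.F4.B3
import Pool.Agent.TH932.Growth
import Pool.Agent.TH932.Asm4

set_option autoImplicit false
set_option linter.unusedSectionVars false

/-!
# Bounded terms, and the contradiction with linear complexity

Port of helper932's `S2/Bsm4` (project S2) to families of finite segments.
-/

namespace Pool.Agent.TH796.F4

open Filter Topology Pool.Agent.TH932.Abs Pool.Agent.TH932.Germs Pool.Agent.TH932.Chi
open Pool.Agent.TH932.Words Pool.Agent.TH932.Scale Pool.Agent.TH932.S2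

namespace Ctx3

variable {p q M : ℕ} {α : Type*} [Finite α] (X : Ctx3 p q M α)

lemma int_b (b : ℕ) (M : Submonoid ℤ) (y : ℕ → ℤ) :
    gm (fun n => (y n : ℚ)) ∈ SS X.L (Rb b M) 0 := by
  rw [mem_SS]
  intro ε hε
  filter_upwards [L_nonneg X.tL] with n h1
  refine ⟨1, 1, y n, 0, one_ne_zero, ?_, M.one_mem, by simp, ?_⟩
  · rw [Int.cast_one, abs_one]
    exact Real.one_le_exp (by positivity)
  · have : 0 ≤ ε * X.L n := by positivity
    push_cast
    linarith

/-- the size parameter -/
noncomputable def B : ℝ := (X.C + 1) * Real.log (2 * M) + X.Cy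

lemma B_pos : 0 < X.B := by
  have := X.hC
  have := X.hCy
  have := X.log2M
  unfold B; positivity

lemma rh_p (s : Fin (X.R + 1)) : X.rh s ∈ SS X.L (Rb p (cop p)) 0 := by
  unfold rh
  rw [mem_SS]
  intro ε hε
  filter_upwards [L_nonneg X.tL] with n h1
  have hq := X.q0
  refine ⟨1, (q : ℤ) ^ (X.os n s), X.Qs n s, 0, one_ne_zero, ?_, ?_, ?_, ?_⟩
  · rw [Int.cast_one, abs_one]
    exact Real.one_le_exp (by positivity)
  · exact X.hpq.pow_left
  · push_cast
    field_simp
  · have : 0 ≤ ε * X.L n := by positivity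
    push_cast
    linarith

lemma os_log (n : ℕ) (s : Fin (X.R + 1)) :
    (X.os n s : ℝ) * Real.log q ≤ X.B * X.L n := by
  have hMr : (1 : ℝ) ≤ M := by exact_mod_cast X.hM1
  have hlM : Real.log M ≤ Real.log (2 * M) := Real.log_le_log (by linarith) (by linarith)
  have hlM0 := X.log2M
  have h2 := X.os_le n s
  have h3 := X.len_le n s
  have hq1 : (0 : ℝ) < q := by have := X.hq; positivity
  have h4 : (X.os n s : ℝ) * Real.log q ≤ X.len n s * Real.log M := by
    have := Real.log_le_log (by positivity) h2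
    rwa [Real.log_pow, Real.log_pow] at this
  have h5 : (X.len n s : ℝ) * Real.log M ≤ (X.C + 1) * X.L n * Real.log (2 * M) := by
    have := Real.log_nonneg hMr
    have h6 : 0 ≤ (X.C + 1) * X.L n := le_trans (by positivity) h3
    gcongr
  have h7 : 0 ≤ X.Cy * X.L n := mul_nonneg X.hCy (by unfold L; positivity)
  unfold B
  linarith

lemma rh_q (M : Submonoid ℤ) (s : Fin (X.R + 1)) : X.rh s ∈ SS X.L (Rb q M) (-X.B) := by
  unfold rh
  rw [mem_SS]
  intro ε hε
  filter_upwards [L_nonneg X.tL] with n h1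
  have hq := X.q0
  refine ⟨1, 1, X.Qs n s, -(X.os n s : ℤ), one_ne_zero, ?_, Submonoid.one_mem _, ?_, ?_⟩
  · rw [Int.cast_one, abs_one]
    exact Real.one_le_exp (by positivity)
  · rw [zpow_neg, zpow_natCast]
    push_cast
    field_simp
  · have h2 := X.os_log n s
    have h6 : 0 ≤ ε * X.L n := by positivity
    push_cast
    linarith

lemma rh_sint (s : Fin (X.R + 1)) : Sint X.L p q (X.rh s) := by
  refine ⟨-X.B, ?_⟩
  unfold rh
  rw [mem_SS]
  intro ε hε
  filter_upwards [L_nonneg X.tL] with n h1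
  have hq := X.q0
  have hB := X.B_pos
  refine ⟨1, X.Qs n s, 0, -(X.os n s : ℤ), one_ne_zero, ?_, ?_, ?_, ?_⟩
  · rw [Int.cast_one, abs_one]
    exact Real.one_le_exp (by positivity)
  · rw [zpow_neg, zpow_natCast, zpow_zero]
    push_cast
    field_simp
  · have h6 : 0 ≤ ε * X.L n := by positivity
    have h7 : 0 ≤ X.B * X.L n := by positivity
    push_cast
    linarith
  · have h2 := X.os_log n s
    have h6 : 0 ≤ ε * X.L n := by positivity
    push_cast
    linarith

lemma rh_i (s : Fin (X.R + 1)) : X.rh s ∈ SS X.L Rinf (-X.B) := by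
  have hMr : (1 : ℝ) ≤ M := by exact_mod_cast X.hM1
  have hlM0 := X.log2M
  unfold rh
  rw [mem_SS]
  intro ε hε
  filter_upwards [L_nonneg X.tL] with n h1
  have h2 := X.Qs_le n s
  have h3 := X.len_le n s
  unfold Rinf
  push_cast
  have hq1 : (1 : ℝ) ≤ (q : ℝ) ^ (X.os n s) := by
    have := X.hq
    have : (1 : ℝ) ≤ q := by exact_mod_cast (by omega : 1 ≤ q)
    exact one_le_pow₀ this
  rw [abs_div, abs_of_nonneg (by linarith : (0 : ℝ) ≤ (q : ℝ) ^ (X.os n s))]
  calc |(X.Qs n s : ℝ)| / (q : ℝ) ^ (X.os n s) ≤ |(X.Qs n s : ℝ)| := div_le_self (abs_nonneg _) hq1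
    _ ≤ (2 * M : ℝ) ^ (X.len n s) := h2
    _ = Real.exp (Real.log (2 * M) * X.len n s) := by
        rw [← Real.rpow_natCast, Real.rpow_def_of_pos (by linarith)]
    _ ≤ Real.exp (-(-X.B - ε) * X.L n) := by
        apply Real.exp_le_exp.2
        have h5 : Real.log (2 * M) * (X.len n s : ℝ)
            ≤ Real.log (2 * M) * ((X.C + 1) * X.L n) := by gcongr
        have h6 : 0 ≤ ε * X.L n := by positivity
        have h7 : 0 ≤ X.Cy * X.L n := mul_nonneg X.hCy h1
        unfold B
        linarith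

lemma gY_i : X.gY (X.pos 0) ∈ SS X.L Rinf (-X.B) := by
  have hlM0 := X.log2M
  unfold gY
  rw [mem_SS]
  intro ε hε
  filter_upwards [L_nonneg X.tL, X.win (X.C + 1)] with n h1 hwin
  have h3 := X.nx_le n 0
  have h4 := X.y_exp n (X.pos 0 n) (by
    have := hwin (X.pos 0 n) (by
      have e1 : (X.pos 0 n : ℝ) = X.nx n 0 := rfl
      rw [e1]; simpa using h3)
    omega)
  have h5 : Real.log (|((X.Z n).y 0 : ℝ)| + 1) ≤ X.Cy * X.L n := X.hy0 n
  simp only [Nat.cast_zero, zero_add] at h3
  unfold Rinf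
  push_cast
  have h6 : |((X.Z n).y (X.pos 0 n) : ℝ)| ≤ Real.exp (Real.log (|((X.Z n).y 0 : ℝ)| + 1)
      + Real.log (2 * M) * X.pos 0 n) := by
    rw [Real.exp_add, Real.exp_log (by positivity)]
    linarith
  refine h6.trans (Real.exp_le_exp.2 ?_)
  have h7 : Real.log (2 * M) * (X.pos 0 n : ℝ) ≤ Real.log (2 * M) * ((X.C + 1) * X.L n) := by
    have : (X.pos 0 n : ℝ) = X.nx n 0 := rfl
    rw [this]
    gcongr
  have h8 : 0 ≤ ε * X.L n := by positivity
  unfold B
  linarith

/-- the generators are bounded at all places -/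
lemma zf_mem (v : Pl) (j : Option (Option (Fin (X.R + 1)))) :
    X.zf j ∈ Sv X.L p q v (-X.B) := by
  have hF := filt_v X.tL X.hp X.hq v
  have hB := X.B_pos
  match j with
  | none =>
    have := hF.alg_mem 1
    rw [map_one] at this
    exact hF.anti (by linarith) this
  | some none =>
    cases v
    · exact hF.anti (by linarith) (X.int_b _ _ _)
    · exact hF.anti (by linarith) (X.int_b _ _ _)
    · exact X.gY_i
  | some (some s) =>
    cases v
    · exact hF.anti (by linarith) (X.rh_p s)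
    · exact X.rh_q _ s
    · exact X.rh_i s

lemma zf_sint (j : Option (Option (Fin (X.R + 1)))) : Sint X.L p q (X.zf j) := by
  match j with
  | none =>
    have := Sint.alg X.tL X.hp X.hq 1
    simpa [zf] using this
  | some none =>
    refine ⟨0, ?_⟩
    unfold zf gY
    rw [mem_SS]
    intro ε hε
    filter_upwards [L_nonneg X.tL] with n h1
    have : 0 ≤ ε * X.L n := by positivity
    refine ⟨1, (X.Z n).y (X.pos 0 n), 0, 0, one_ne_zero, ?_, by simp, ?_, ?_⟩
    · rw [Int.cast_one, abs_one]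
      exact Real.one_le_exp (by positivity)
    · push_cast
      linarith
    · push_cast
      linarith
  | some (some s) => exact X.rh_sint s

/-- the terms of the chain are bounded -/
lemma chain_bound (hbd : BDStmt) : ∃ B : ℝ, ∀ e, X.gY (X.pos e) ∈ SS X.L Rinf (-B) := by
  obtain ⟨B, hB⟩ := hbd p q X.hp X.hq X.hpq X.L X.tL _ inferInstance X.zf X.B X.cM
    X.zf_mem X.zf_sint
  refine ⟨B, fun e => ?_⟩
  obtain ⟨M, h, P, hM, _, _, hP, _, hr⟩ := X.chain e
  exact hB _ h M P (X.int_b _ _ _) hM (fun j g hg => hP j g hg) hr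

/-- **All terms up to every multiple of the scale are bounded.** -/
theorem bounded (hbd : BDStmt) : ∃ B : ℝ, 0 < B ∧ ∀ A : ℝ, ∀ᶠ n in (UU : Filter ℕ), ∀ k : ℕ,
    (k : ℝ) ≤ A * X.L n → |((X.Z n).y k : ℝ)| ≤ Real.exp (B * X.L n) := by
  obtain ⟨B0, hB0⟩ := X.chain_bound hbd
  have hlM := X.log2M
  have hlp := X.logp
  have hC := X.hC
  set B1 : ℝ := |B0| + 2 with hB1
  have hB1p : 0 ≤ B1 := by positivity
  set G : ℝ := (B1 + 1) / Real.log p + 1 + (X.C + 1) with hG
  have hGp : 0 ≤ G := by positivity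
  have hCy := X.hCy
  set B : ℝ := Real.log (2 * M) * G + B1 + (1 + X.Cy + Real.log (2 * M) * (X.C + 1)) with hBd
  have hBp : 0 < B := by positivity
  refine ⟨B, hBp, fun A => ?_⟩
  obtain ⟨E, hE⟩ := exists_nat_gt ((|A| + 1) / X.cmin)
  rw [div_lt_iff₀ X.cmin_pos] at hE
  -- the terms of the chain
  have hch : ∀ᶠ n in (UU : Filter ℕ), ∀ e ∈ Finset.range (E + 1),
      |((X.Z n).y (X.pos e n) : ℝ)| + 1 ≤ Real.exp (B1 * X.L n) := by
    rw [Finset.eventually_all]
    intro e _
    have h1 := hB0 e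
    unfold gY at h1
    rw [mem_SS] at h1
    filter_upwards [h1 1 one_pos, ev_of_atTop (X.tL.eventually_ge_atTop 1)] with n h2 h3
    unfold Rinf at h2
    push_cast at h2
    have h4 : Real.exp (-(-B0 - 1) * X.L n) ≤ Real.exp ((B1 - 1) * X.L n) := by
      apply Real.exp_le_exp.2
      have := le_abs_self B0
      rw [hB1]
      nlinarith
    have h5 : (1 : ℝ) ≤ Real.exp ((B1 - 1) * X.L n) := by
      apply Real.one_le_exp
      have : 0 ≤ B1 - 1 := by rw [hB1]; have := abs_nonneg B0; linarith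
      positivity
    have h6 : Real.exp (B1 * X.L n) = Real.exp ((B1 - 1) * X.L n) * Real.exp (X.L n) := by
      rw [← Real.exp_add]; ring_nf
    have h7 : (2 : ℝ) ≤ Real.exp (X.L n) := by
      have := Real.add_one_le_exp (X.L n)
      linarith
    rw [h6]
    nlinarith
  have hms : ∀ᶠ n in (UU : Filter ℕ), ∀ e ∈ Finset.range (E + 1),
      |((X.Z n).y (X.pos e n) : ℝ)| + 1 ≤ Real.exp (B1 * X.L n) →
      (X.Mn n (X.pos e n) : ℝ) ≤ X.pos e n + ((B1 + 1) / Real.log p + 1) * X.L n := by
    rw [Finset.eventually_all]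
    intro e _
    obtain ⟨A', _, h⟩ := X.mstep e
    filter_upwards [h, X.gap_le hB1p A'] with n hn hg hy
    exact hg _ _ (X.pos_smk e n) hy hn.2.2.2.1
      ((by exact_mod_cast hn.2.2.2.2.1 : (X.Mn n (X.pos e n) : ℝ) ≤ X.pos (e + 1) n).trans
        hn.2.2.2.2.2)
  obtain ⟨_, hh, _, _, _, hhE, _, hhn, _⟩ := X.chain E
  filter_upwards [hch, hms, X.win A, hhn 1 one_pos,
    ev_of_atTop (X.tL.eventually_ge_atTop 1)] with n h1 h2 hwin h4 h5 k hk
  have hkN : k ≤ (X.Z n).N := by have := hwin k hk; omega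
  have hL0 : 0 < X.L n := by linarith
  have h6' : Real.log (|((X.Z n).y 0 : ℝ)| + 1) ≤ X.Cy * X.L n := X.hy0 n
  by_cases hk0 : k < X.pos 0 n
  · -- before the chain
    have h7 := X.y_exp n k hkN
    have h8 := X.nx_le n 0
    have h9 : (k : ℝ) ≤ (X.C + 1) * X.L n := by
      have e1 : (X.pos 0 n : ℝ) = X.nx n 0 := rfl
      have e2 : (k : ℝ) ≤ X.pos 0 n := by exact_mod_cast hk0.le
      rw [e1] at e2
      simp only [Nat.cast_zero, zero_add] at h8
      linarith
    have h10 : |((X.Z n).y k : ℝ)| ≤ Real.exp (Real.log (|((X.Z n).y 0 : ℝ)| + 1)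
        + Real.log (2 * M) * k) := by
      rw [Real.exp_add, Real.exp_log (by positivity)]
      linarith
    refine h10.trans (Real.exp_le_exp.2 ?_)
    have h11 : Real.log (2 * M) * (k : ℝ) ≤ Real.log (2 * M) * ((X.C + 1) * X.L n) := by
      gcongr
    rw [hBd]
    have h12 : 0 ≤ (Real.log (2 * M) * G + B1) * X.L n := by positivity
    nlinarith
  · push Not at hk0
    -- the last term of the chain before `k`
    have hkE : k < X.pos E n := by
      have h7 := (abs_le.1 h4).1
      have h8 : (0 : ℝ) ≤ X.pos 0 n := by positivity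
      have h9 : A * X.L n ≤ |A| * X.L n := by
        have := le_abs_self A
        gcongr
      have h10 : (k : ℝ) < X.pos E n := by nlinarith
      exact_mod_cast h10
    obtain ⟨e, he1, he2, he3⟩ : ∃ e, e < E ∧ X.pos e n ≤ k ∧ k < X.pos (e + 1) n := by
      classical
      have hex : ∃ e, k < X.pos e n := ⟨E, hkE⟩
      have h7 := Nat.find_spec hex
      have h8 : Nat.find hex ≠ 0 := by
        intro h9
        rw [h9] at h7
        omega
      obtain ⟨e, he⟩ := Nat.exists_eq_succ_of_ne_zero h8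
      have h9 : ¬ k < X.pos e n := Nat.find_min hex (by omega)
      have h10 : Nat.find hex ≤ E := Nat.find_min' hex hkE
      refine ⟨e, by omega, by omega, ?_⟩
      rw [he] at h7
      exact h7
    have heE : e ∈ Finset.range (E + 1) := Finset.mem_range.2 (by omega)
    have g4 := h1 e heE
    have g5 := h2 e heE g4
    have g6 := X.nx_le n (X.Mn n (X.pos e n))
    have g7 : (X.pos (e + 1) n : ℝ) ≤ X.pos e n + G * X.L n := by
      have e1 : (X.pos (e + 1) n : ℝ) = X.nx n (X.Mn n (X.pos e n)) := rfl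
      rw [e1, hG]
      linarith
    -- the growth from there
    have g8 : |((X.Z n).y k : ℝ)| + 1 ≤ Real.exp (Real.log (2 * M) * ((k : ℝ) - X.pos e n))
        * (|((X.Z n).y (X.pos e n) : ℝ)| + 1) := by
      have hMr : (1 : ℝ) ≤ M := by exact_mod_cast X.hM1
      obtain ⟨d, hd⟩ := Nat.exists_eq_add_of_le he2
      have key : ∀ d : ℕ, X.pos e n + d ≤ (X.Z n).N → |((X.Z n).y (X.pos e n + d) : ℝ)| + 1
          ≤ (2 * M : ℝ) ^ d * (|((X.Z n).y (X.pos e n) : ℝ)| + 1) := by
        intro d hdN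
        have h7 : |(X.Z n).y (X.pos e n + d)| + 1
            ≤ (2 * M : ℤ) ^ d * (|(X.Z n).y (X.pos e n)| + 1) := by
          induction d with
          | zero => simp
          | succ d ih =>
            have hMz : (1 : ℤ) ≤ M := by exact_mod_cast X.hM1
            have h1 : |(X.Z n).y (X.pos e n + d + 1)| ≤ |(p : ℤ) * (X.Z n).y (X.pos e n + d + 1)| := by
              rw [abs_mul]
              have : (1 : ℤ) ≤ |(p : ℤ)| := Int.one_le_abs (X.Z n).p_ne
              nlinarith [abs_nonneg ((X.Z n).y (X.pos e n + d + 1))]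
            have h2 : |(p : ℤ) * (X.Z n).y (X.pos e n + d + 1)|
                ≤ M * |(X.Z n).y (X.pos e n + d)| + M := by
              rw [(X.Z n).hrec _ (by omega)]
              refine (abs_add_le _ _).trans ?_
              rw [abs_mul]
              have h1 : |((q : ℤ)) ^ (X.Z n).δ ((X.Z n).w (X.pos e n + d))| ≤ M := by
                rw [abs_of_nonneg (by positivity)]
                exact_mod_cast (X.Z n).hqM _
              have := (X.Z n).hβM ((X.Z n).w (X.pos e n + d))
              gcongr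
            have h3 : |(X.Z n).y (X.pos e n + d + 1)| + 1
                ≤ 2 * M * (|(X.Z n).y (X.pos e n + d)| + 1) := by
              nlinarith [abs_nonneg ((X.Z n).y (X.pos e n + d))]
            rw [← add_assoc]
            calc |(X.Z n).y (X.pos e n + d + 1)| + 1
                ≤ 2 * M * (|(X.Z n).y (X.pos e n + d)| + 1) := h3
              _ ≤ 2 * M * ((2 * M : ℤ) ^ d * (|(X.Z n).y (X.pos e n)| + 1)) := by
                  have := ih (by omega)
                  gcongr
              _ = (2 * M : ℤ) ^ (d + 1) * (|(X.Z n).y (X.pos e n)| + 1) := by ring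
        exact_mod_cast h7
      have h8 := key d (by omega)
      rw [← hd] at h8
      rw [← Real.rpow_natCast, Real.rpow_def_of_pos (by linarith)] at h8
      have h9 : (d : ℝ) = (k : ℝ) - X.pos e n := by
        have : (k : ℝ) = X.pos e n + d := by exact_mod_cast hd
        linarith
      rw [h9] at h8
      exact h8
    have g9 : Real.log (2 * M) * ((k : ℝ) - X.pos e n) ≤ Real.log (2 * M) * (G * X.L n) := by
      have : (k : ℝ) ≤ X.pos (e + 1) n := by exact_mod_cast he3.le
      gcongr; linarith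
    have g10 : |((X.Z n).y k : ℝ)| ≤ Real.exp (Real.log (2 * M) * (G * X.L n))
        * Real.exp (B1 * X.L n) := by
      calc |((X.Z n).y k : ℝ)| ≤ |((X.Z n).y k : ℝ)| + 1 := by linarith
        _ ≤ Real.exp (Real.log (2 * M) * ((k : ℝ) - X.pos e n))
            * (|((X.Z n).y (X.pos e n) : ℝ)| + 1) := g8
        _ ≤ _ := by gcongr
    refine g10.trans ?_
    rw [← Real.exp_add]
    apply Real.exp_le_exp.2
    rw [hBd]
    have h12 : 0 ≤ (1 + Real.log (2 * M) * (X.C + 1)) * X.L n := by positivity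
    nlinarith

/-- linear complexity at a multiple of the scale is impossible -/
theorem absurd_of (hbd : BDStmt) {C2 : ℝ}
    (hC2 : ∀ c : ℕ, 1 ≤ c → ∀ᶠ n in (UU : Filter ℕ),
      (cx (X.Z n).w (c * X.l n) : ℝ) ≤ C2 * (c * X.l n : ℕ)) : False := by
  obtain ⟨B, hB, hb⟩ := X.bounded hbd
  have hlp := X.logp
  -- the multiple
  obtain ⟨c, hc⟩ := exists_nat_gt ((B + 1) / Real.log p)
  rw [div_lt_iff₀ hlp] at hc
  have hc0 : 0 < c := by
    by_contra h
    have : c = 0 := by omega
    rw [this] at hc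
    push_cast at hc
    linarith
  have hc0' : (0 : ℝ) < c := by exact_mod_cast hc0
  obtain ⟨n, h1, h2, h3, hDn⟩ := ((hb (|C2| * c)).and
    ((ev_of_atTop (X.tL.eventually_ge_atTop 1)).and ((hC2 c hc0).and
      (X.win (|C2| * c + c))))).exists
  have hln : (X.l n : ℝ) = X.L n := rfl
  obtain ⟨a, b, _, hab, hbl, hE⟩ := exists_rep (X.Z n).w (c * X.l n) 0
  rw [zero_add] at hbl
  have h4 : (b : ℝ) ≤ |C2| * c * X.L n := by
    have h5 : (b : ℝ) ≤ cx (X.Z n).w (c * X.l n) := by exact_mod_cast hbl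
    have h6 : C2 * ((c * X.l n : ℕ) : ℝ) ≤ |C2| * ((c * X.l n : ℕ) : ℝ) := by
      have := le_abs_self C2
      gcongr
    push_cast at h3 h6
    rw [hln] at h3 h6
    linarith
  have h5 : (a : ℝ) ≤ |C2| * c * X.L n := by
    have : (a : ℝ) ≤ b := by exact_mod_cast hab.le
    linarith
  have h6 := h1 a h5
  have h7 := h1 b h4
  have hbN : b + c * X.l n ≤ (X.Z n).N := by
    have := hDn (b + c * X.l n) (by
      push_cast
      rw [hln]
      linarith)
    omega
  have h8 := (X.Z n).dvd_of_eqv hE (by omega) hbN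
  have h9 : (X.Z n).y b - (X.Z n).y a ≠ 0 := by
    rw [sub_ne_zero]; intro h
    exact (X.Z n).hinj a b hab (by omega) h.symm
  have h10 := Int.le_of_dvd (abs_pos.2 h9) ((dvd_abs _ _).2 h8)
  have h11 : ((p : ℝ)) ^ (c * X.l n) ≤ |((X.Z n).y b : ℝ) - (X.Z n).y a| := by exact_mod_cast h10
  have h12 : |((X.Z n).y b : ℝ) - (X.Z n).y a| ≤ 2 * Real.exp (B * X.L n) := by
    refine (abs_sub _ _).trans ?_
    linarith
  have h13 : ((p : ℝ)) ^ (c * X.l n) = Real.exp (Real.log p * (c * X.L n)) := by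
    have hp0 : (0 : ℝ) < p := by
      have := X.hp
      exact_mod_cast (show 0 < p by omega)
    rw [← Real.rpow_natCast, Real.rpow_def_of_pos hp0]
    push_cast
    rw [hln]
  have h14 : 2 * Real.exp (B * X.L n) < Real.exp ((B + 1) * X.L n) := by
    rw [add_mul, Real.exp_add]
    have h15 := Real.add_one_le_exp (1 * X.L n)
    have h16 : (2 : ℝ) < Real.exp (1 * X.L n) := by
      have h17 : Real.exp 1 ≤ Real.exp (1 * X.L n) := Real.exp_le_exp.2 (by linarith)
      have h18 := Real.exp_one_gt_d9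
      linarith
    have := Real.exp_pos (B * X.L n)
    nlinarith
  have h15 : Real.exp (Real.log p * (c * X.L n)) < Real.exp ((B + 1) * X.L n) := by
    rw [← h13]; linarith
  have h16 := Real.exp_lt_exp.1 h15
  have hL0 : 0 < X.L n := by linarith
  nlinarith

end Ctx3

end Pool.Agent.TH796.F4
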