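import Mathlib
import Pool.Agent.TH796.F4.B4

set_option autoImplicit false

/-!
# The uniform theorem for finite segments
-/

namespace Pool.Agent.TH796.F4

open Filter Topology Pool.Agent.TH932.Germs Pool.Agent.TH932.S2 Pool.Agent.TH932.Words

/-- the number of factors of length `m` of the word `w 0, ..., w (N-1)` -/
noncomputable def cf {α : Type*} (w : ℕ → α) (N m : ℕ) : ℕ :=
  (fac w m '' {i | i + m ≤ N}).ncard

/-- a scale with an upper bound -/
lemma exists_scale {α : Type*} [Finite α] (w : ℕ → α) {C : ℝ} (hC : 0 ≤ C) {N : ℕ} (hN : 2 ≤ N)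
    (h : (cx w N : ℝ) ≤ C * N) : ∃ l, N ≤ 2 * l ∧ l ≤ N ∧ (cx w l : ℝ) ≤ 2 * C * l ∧
      (cx w (l + 1) : ℝ) ≤ 3 * C + cx w l := by
  by_contra hcon
  push Not at hcon
  have key : ∀ k : ℕ, N - N / 2 + k ≤ N → (cx w (N - N / 2) : ℝ) + 3 * C * k
      ≤ cx w (N - N / 2 + k) := by
    intro k
    induction k with
    | zero => intro _; simp
    | succ k ih =>
      intro hk
      have h1 := ih (by omega)
      have h2 : (cx w (N - N / 2 + k) : ℝ) ≤ 2 * C * ((N - N / 2 + k : ℕ) : ℝ) := by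
        have h3 : (cx w (N - N / 2 + k) : ℝ) ≤ cx w N := by
          exact_mod_cast Pool.Agent.TH932.Asm.cx_mono w (by omega : N - N / 2 + k ≤ N)
        refine h3.trans (h.trans ?_)
        have h4 : (N : ℝ) ≤ 2 * ((N - N / 2 + k : ℕ) : ℝ) := by
          exact_mod_cast (by omega : N ≤ 2 * (N - N / 2 + k))
        nlinarith
      have h3 := hcon (N - N / 2 + k) (by omega) (by omega) h2
      rw [← add_assoc]
      push_cast
      linarith
  have h1 := key (N / 2) (by omega)
  rw [show N - N / 2 + N / 2 = N by omega] at h1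
  have h2 : (N : ℝ) ≤ 3 * ((N / 2 : ℕ) : ℝ) := by
    exact_mod_cast (by omega : N ≤ 3 * (N / 2))
  have h3 : (1 : ℝ) ≤ cx w (N - N / 2) := by
    have : 0 < cx w (N - N / 2) := by
      unfold cx
      rw [Set.ncard_pos (finite_range_fac _ _)]
      exact Set.range_nonempty _
    exact_mod_cast this
  nlinarith

/-! ## closing a word with a separator -/

/-- the periodic word with a separator -/
def cyc {α : Type*} (w : ℕ → α) (N : ℕ) (k : ℕ) : Option α :=
  if k % (N + 1) = N then none else some (w (k % (N + 1)))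

lemma cyc_lt {α : Type*} (w : ℕ → α) {N k : ℕ} (hk : k < N) : cyc w N k = some (w k) := by
  unfold cyc
  rw [Nat.mod_eq_of_lt (by omega), if_neg (by omega)]

lemma cyc_mod {α : Type*} (w : ℕ → α) (N k : ℕ) : cyc w N (k % (N + 1)) = cyc w N k := by
  unfold cyc
  rw [Nat.mod_mod]

lemma cyc_add_mod {α : Type*} (w : ℕ → α) (N i k : ℕ) :
    cyc w N (i % (N + 1) + k) = cyc w N (i + k) := by
  rw [← cyc_mod w N (i + k), ← cyc_mod w N (i % (N + 1) + k)]
  congr 1
  rw [Nat.mod_add_mod]

lemma cyc_none {α : Type*} {w : ℕ → α} {N k : ℕ} : cyc w N k = none ↔ k % (N + 1) = N := by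
  unfold cyc
  split_ifs with h <;> simp [h]

lemma cyc_hap {α : Type*} (w : ℕ → α) (N a b : ℕ) (hab : a < b) (hb : b ≤ a + N) :
    ∃ k, cyc w N (a + k) ≠ cyc w N (b + k) := by
  by_contra hcon
  push Not at hcon
  have hr : a % (N + 1) < N + 1 := Nat.mod_lt a (Nat.succ_pos N)
  set k := N - a % (N + 1) with hk
  have h1 : (a + k) % (N + 1) = N := by
    have h2 : (a + k) % (N + 1) = (a % (N + 1) + k) % (N + 1) := by rw [Nat.mod_add_mod]
    rw [h2, show a % (N + 1) + k = N by omega, Nat.mod_eq_of_lt (by omega)]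
  have h3 : (b + k) % (N + 1) = N := cyc_none.1 ((hcon k).symm.trans (cyc_none.2 h1))
  have h4 : (N + 1) ∣ (b + k) - (a + k) :=
    (Nat.modEq_iff_dvd' (by omega)).1 (show (a + k) ≡ (b + k) [MOD (N + 1)] by
      unfold Nat.ModEq; rw [h1, h3])
  have h5 := Nat.le_of_dvd (by omega) h4
  omega

lemma cyc_cx {α : Type*} [Finite α] (w : ℕ → α) (N m : ℕ) : cx (cyc w N) m ≤ cf w N m + m := by
  classical
  set F : (Fin m → α) → (Fin m → Option α) := fun v i => some (v i) with hF
  have hsub : Set.range (fac (cyc w N) m) ⊆ F '' (fac w m '' {i | i + m ≤ N}) ∪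
      fac (cyc w N) m '' (Finset.Icc (N + 1 - m) N : Set ℕ) := by
    rintro _ ⟨i, rfl⟩
    have h1 : fac (cyc w N) m i = fac (cyc w N) m (i % (N + 1)) := by
      rw [fac_eq]
      intro k _
      rw [cyc_add_mod]
    have hr : i % (N + 1) < N + 1 := Nat.mod_lt i (Nat.succ_pos N)
    by_cases h : i % (N + 1) + m ≤ N
    · left
      refine ⟨_, ⟨i % (N + 1), h, rfl⟩, ?_⟩
      rw [h1]
      funext k
      have hk := k.2
      simp only [hF, fac]
      rw [cyc_lt w (by omega)]
    · right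
      refine ⟨i % (N + 1), ?_, h1.symm⟩
      rw [Finset.coe_Icc, Set.mem_Icc]
      omega
  have hfin : (fac w m '' {i | i + m ≤ N}).Finite := Set.toFinite _
  have hfin2 : (fac (cyc w N) m '' (Finset.Icc (N + 1 - m) N : Set ℕ)).Finite := Set.toFinite _
  have h1 := Set.ncard_le_ncard hsub ((hfin.image F).union hfin2)
  have h2 := Set.ncard_union_le (F '' (fac w m '' {i | i + m ≤ N}))
    (fac (cyc w N) m '' (Finset.Icc (N + 1 - m) N : Set ℕ))
  have h3 := Set.ncard_image_le (f := F) hfin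
  have h4 : (fac (cyc w N) m '' (Finset.Icc (N + 1 - m) N : Set ℕ)).ncard ≤ m := by
    refine (Set.ncard_image_le (Finset.finite_toSet _)).trans ?_
    rw [Set.ncard_coe_finset, Nat.card_Icc]
    omega
  unfold cx cf
  omega

/-- the closed segment -/
def Sy.close {p q M : ℕ} {α : Type*} (hp : 2 ≤ p) (hq : 2 ≤ q) (hpq : IsCoprime (q : ℤ) (p : ℤ))
    (hpM : p ≤ M) (δ : α → ℕ) (β : α → ℤ) (hqM : ∀ a, q ^ δ a ≤ M) (hβM : ∀ a, |β a| ≤ M)
    (w : ℕ → α) (y : ℕ → ℤ) (N : ℕ)
    (hrec : ∀ k, k < N → (p : ℤ) * y (k + 1) = (q : ℤ) ^ δ (w k) * y k + β (w k))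
    (hinj : ∀ s t, s < t → t ≤ N → y s ≠ y t) : Sy p q M (Option α) where
  w := cyc w N
  δ := fun o => o.elim 0 δ
  β := fun o => o.elim 0 β
  y := y
  N := N
  hp := hp
  hq := hq
  hpq := hpq
  hpM := hpM
  hqM := by
    intro a
    cases a with
    | none => simp; omega
    | some a => exact hqM a
  hβM := by
    intro a
    cases a with
    | none => simp
    | some a => exact hβM a
  hrec := by
    intro k hk
    rw [cyc_lt w hk]
    exact hrec k hk
  hinj := hinj
  hap := cyc_hap w N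

/-- **The uniform theorem.** -/
theorem uniform (hbd : BDStmt) {p q M : ℕ} {α : Type*} [Finite α] (hp : 2 ≤ p) (hq : 2 ≤ q)
    (hpq : IsCoprime (q : ℤ) (p : ℤ)) (hpM : p ≤ M) (C Cy : ℝ) :
    ∃ K : ℕ, ∀ (δ : α → ℕ) (β : α → ℤ), (∀ a, q ^ δ a ≤ M) → (∀ a, |β a| ≤ M) →
      ∀ (w : ℕ → α) (y : ℕ → ℤ) (N s : ℕ),
      (∀ k, k < N → (p : ℤ) * y (k + 1) = (q : ℤ) ^ δ (w k) * y k + β (w k)) →
      (∀ s t, s < t → t ≤ N → y s ≠ y t) → K ≤ s → K * s ≤ N →
      Real.log (|(y 0 : ℝ)| + 1) ≤ Cy * s → ∃ m, s ≤ m ∧ m ≤ K * s ∧ C * m < cf w N m := by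
  classical
  by_contra hcon
  push Not at hcon
  set C' : ℝ := |C| + 1 with hC'
  have hC'0 : 0 ≤ C' := by positivity
  set k0 : ℕ := ⌈4 * C'⌉₊ + 2 with hk0
  have hk0C : 4 * C' ≤ (k0 : ℝ) := by
    rw [hk0]; push_cast
    have := Nat.le_ceil (4 * C')
    linarith
  choose δ β hqM hβM w y N s hrec hinj hKs hsN hy hcf using fun n : ℕ => hcon (n + k0)
  have hsk : ∀ n, 2 ≤ s n := fun n => by have := hKs n; omega
  have hcx : ∀ n m : ℕ, s n ≤ m → m ≤ (n + k0) * s n → (cx (cyc (w n) (N n)) m : ℝ) ≤ C' * m := by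
    intro n m h1 h2
    have h3 := hcf n m h1 h2
    have h4 : (cx (cyc (w n) (N n)) m : ℝ) ≤ cf (w n) (N n) m + m := by
      exact_mod_cast cyc_cx (w n) (N n) m
    have h5 : C * m ≤ |C| * m := by
      have := le_abs_self C
      gcongr
    rw [hC']
    linarith
  have hsc : ∀ n, ∃ l, s n ≤ l ∧ l ≤ 2 * s n ∧
      (cx (cyc (w n) (N n)) l : ℝ) ≤ 2 * C' * l ∧
      (cx (cyc (w n) (N n)) (l + 1) : ℝ) ≤ 3 * C' + cx (cyc (w n) (N n)) l := by
    intro n
    have h1 := hcx n (2 * s n) (by omega) (by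
      have : 2 ≤ n + k0 := by omega
      exact Nat.mul_le_mul_right _ this)
    obtain ⟨l, h2, h3, h4, h5⟩ := exists_scale (cyc (w n) (N n)) hC'0
      (by have := hsk n; omega : 2 ≤ 2 * s n) h1
    exact ⟨l, by omega, h3, h4, h5⟩
  choose l hl1 hl2 hl3 hl4 using hsc
  let X : Ctx3 p q M (Option α) :=
    { Z := fun n => Sy.close hp hq hpq hpM (δ n) (β n) (hqM n) (hβM n) (w n) (y n) (N n) (hrec n)
        (hinj n)
      l := l
      R := ⌈6 * C'⌉₊
      C := 2 * C'
      Cy := |Cy|
      hp := hp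
      hq := hq
      hpq := hpq
      hpM := hpM
      hl := tendsto_atTop_mono (fun n => by
        have := hl1 n; have := hKs n; show n ≤ l n; omega) tendsto_id
      hl1 := fun n => by have := hl1 n; have := hsk n; omega
      hcx := hl3
      hR := by
        intro n
        have h1 := hl4 n
        have h2 : 6 * C' ≤ (⌈6 * C'⌉₊ : ℝ) := Nat.le_ceil _
        have h3 : ((2 * cx (cyc (w n) (N n)) (l n + 1) : ℕ) : ℝ)
            ≤ ((⌈6 * C'⌉₊ + 2 * cx (cyc (w n) (N n)) (l n) : ℕ) : ℝ) := by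
          push_cast
          linarith
        exact_mod_cast h3
      hD := by
        intro n
        have h1 := hl3 n
        have h2 : (l n : ℝ) ≤ 2 * s n := by exact_mod_cast hl2 n
        have h3 : (((n + k0) * s n : ℕ) : ℝ) ≤ N n := by exact_mod_cast hsN n
        have h4 : (cx (cyc (w n) (N n)) (l n) : ℝ) ≤ N n := by
          refine le_trans ?_ h3
          refine h1.trans ?_
          push_cast
          have h5 : (0 : ℝ) ≤ s n := by positivity
          have h6 : (0 : ℝ) ≤ (n : ℝ) * s n := by positivity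
          nlinarith
        exact_mod_cast h4
      hD2 := by
        intro K
        obtain ⟨K', hK'⟩ := exists_nat_ge |K|
        apply ev_of_atTop
        filter_upwards [eventually_ge_atTop (2 * K')] with n hn
        have h2 : (l n : ℝ) ≤ 2 * s n := by exact_mod_cast hl2 n
        have h3 : (((n + k0) * s n : ℕ) : ℝ) ≤ N n := by exact_mod_cast hsN n
        have h4 : (2 * K' : ℝ) ≤ n := by exact_mod_cast hn
        refine le_trans ?_ h3
        push_cast
        have h5 : (0 : ℝ) ≤ s n := by positivity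
        have h6 : (0 : ℝ) ≤ (k0 : ℝ) * s n := by positivity
        calc K * (l n : ℝ) ≤ K' * (l n : ℝ) := by
              have := le_abs_self K
              gcongr
              linarith
          _ ≤ K' * (2 * s n) := by gcongr
          _ = 2 * K' * s n := by ring
          _ ≤ n * s n := by gcongr
          _ ≤ _ := by linarith
      hCy := abs_nonneg _
      hy0 := by
        intro n
        refine (hy n).trans ?_
        have h1 : (s n : ℝ) ≤ l n := by exact_mod_cast hl1 n
        have := le_abs_self Cy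
        calc Cy * (s n : ℝ) ≤ |Cy| * s n := by gcongr
          _ ≤ |Cy| * l n := by gcongr }
  refine X.absurd_of hbd (C2 := C') ?_
  intro c hc
  apply ev_of_atTop
  filter_upwards [eventually_ge_atTop (2 * c)] with n hn
  refine hcx n (c * l n) ?_ ?_
  · have := hl1 n
    calc s n ≤ l n := this
      _ = 1 * l n := (one_mul _).symm
      _ ≤ c * l n := Nat.mul_le_mul_right _ hc
  · calc c * l n ≤ c * (2 * s n) := Nat.mul_le_mul_left _ (hl2 n)
      _ = 2 * c * s n := by ring
      _ ≤ (n + k0) * s n := Nat.mul_le_mul_right _ (by omega)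

end Pool.Agent.TH796.F4
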