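import Mathlib
import Pool.Agent.TH796.F4.U5
import Pool.Agent.TH796.F4.Bd5

set_option autoImplicit false

/-!
# Trajectories of the maps `T_{a,b}`: the uniform theorem
-/

namespace Pool.Agent.TH796.F4

open Pool.Agent.TH932.Words

/-- The map `T_{a,b}` on the integers. -/
def Tab (a b x : ℤ) : ℤ := if x % 2 = 0 then x / 2 else (a * x + b) / 2

/-- the parity word of the trajectory of `x` -/
def pw (a b x : ℤ) (k : ℕ) : Bool := decide ((Tab a b)^[k] x % 2 = 1)

lemma Tab_rec {a b : ℤ} (ha : a % 2 = 1) (hb : b % 2 = 1) (x : ℤ) :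
    2 * Tab a b x = a ^ (if x % 2 = 1 then 1 else 0) * x + (if x % 2 = 1 then b else 0) := by
  unfold Tab
  rcases Int.emod_two_eq_zero_or_one x with h | h
  · rw [if_pos h, if_neg (by omega), if_neg (by omega)]
    simp
    omega
  · rw [if_neg (by omega), if_pos h, if_pos h, pow_one]
    have h2 : (a * x + b) % 2 = 0 := by
      rw [Int.add_emod, Int.mul_emod, ha, h, hb]; norm_num
    omega

/-- **Trajectories of `T_{a,b}` without repetition have many parity words.** -/
theorem orbit {a : ℕ} (ha : a % 2 = 1) (ha3 : 3 ≤ a) {b : ℤ} (hb : b % 2 = 1) (C : ℝ) :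
    ∃ K : ℕ, ∀ (x : ℤ) (N s : ℕ), (∀ i j, i < j → j ≤ N → (Tab a b)^[i] x ≠ (Tab a b)^[j] x) →
      K ≤ s → K * s ≤ N → Real.log (|(x : ℝ)| + 1) ≤ s →
      ∃ m, s ≤ m ∧ m ≤ K * s ∧ C * m < cf (pw a b x) N m := by
  set M : ℕ := a + b.natAbs with hM
  have hcop : IsCoprime ((a : ℕ) : ℤ) ((2 : ℕ) : ℤ) := by
    refine ⟨1, -((a : ℤ) / 2), ?_⟩
    push_cast
    omega
  obtain ⟨K, hK⟩ := uniform bd (p := 2) (q := a) (M := M) (α := Bool) le_rfl (by omega) hcop
    (by omega) C 1
  refine ⟨K, fun x N s hinj hKs hsN hx => ?_⟩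
  have ha' : (a : ℤ) % 2 = 1 := by omega
  refine hK (fun t => if t = true then 1 else 0) (fun t => if t = true then b else 0) ?_ ?_
    (pw a b x) (fun k => (Tab a b)^[k] x) N s ?_ hinj hKs hsN (by simpa using hx)
  · intro t
    cases t <;> simp <;> omega
  · intro t
    cases t
    · simp
    · simp only [if_true, hM]
      push_cast
      have : (0 : ℤ) ≤ a := by positivity
      linarith
  · intro k _
    have h := Tab_rec ha' hb ((Tab a b)^[k] x)
    simp only [Function.iterate_succ_apply', pw, decide_eq_true_eq]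
    push_cast
    exact h

end Pool.Agent.TH796.F4
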