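import Mathlib
import Pool.Agent.TH796.F4.Col5
import Pool.Agent.W42.CpxG

set_option autoImplicit false

/-!
# Cycles of the maps `T_{a,b}`: superlinear complexity
-/

namespace Pool.Agent.TH796.F4

open Finset Filter Pool.Agent.TH932.Words Pool.Agent.H547R3.Sub
open Pool.Agent.W42.CpxG (IsCyc words finite_of_card)

/-- some element of a cycle is small -/
lemma min_log {q : ℕ} (hq : q.Prime) (hq2 : q ≠ 2) {k : ℤ} (hk : k % 2 = 1) :
    ∃ G : ℝ, 0 ≤ G ∧ ∀ Z : Finset ℤ, IsCyc (Tm q k) Z →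
      ∃ x0 ∈ Z, Real.log (|(x0 : ℝ)| + 1) ≤ G * (1 + Real.log Z.card) ^ 2 := by
  have hk0 : k ≠ 0 := by rintro rfl; simp at hk
  have hk1 : (1 : ℝ) ≤ |(k : ℝ)| := by
    have : (1 : ℤ) ≤ |k| := Int.one_le_abs hk0
    exact_mod_cast this
  obtain ⟨B, hB0, hB⟩ := cycle_min hq hq2
  have hlk : 0 ≤ Real.log (2 * |(k : ℝ)|) := Real.log_nonneg (by linarith)
  refine ⟨Real.log (2 * |(k : ℝ)|) + 1 + B, by positivity, ?_⟩
  intro Z hZ
  have hp : 0 < Z.card := hZ.card_pos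
  obtain ⟨y, hyZ⟩ := Finset.card_pos.1 hp
  obtain ⟨x0, hx0, hmin⟩ := exists_min_image Z (fun x => |x|) ⟨y, hyZ⟩
  refine ⟨x0, hx0, ?_⟩
  have hpr : (1 : ℝ) ≤ Z.card := by exact_mod_cast hp
  have hlp : 0 ≤ Real.log Z.card := Real.log_nonneg hpr
  by_cases hx00 : x0 = 0
  · rw [hx00]
    simp only [Int.cast_zero, abs_zero, zero_add, Real.log_one]
    positivity
  obtain ⟨hmp, hZset⟩ := hZ.orbit hx0
  set p := Z.card with hpdef
  have hper : (Tm q k)^[p] x0 = x0 := by rw [← hmp]; exact Function.iterate_minimalPeriod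
  have hp0 : (0 : ℝ) < p := by linarith
  have hexp1 : 1 ≤ Real.exp (B * (1 + Real.log p) ^ 2) := Real.one_le_exp (by positivity)
  have hx0pos : (1 : ℝ) ≤ |(x0 : ℝ)| := by
    have : (1 : ℤ) ≤ |x0| := Int.one_le_abs hx00
    exact_mod_cast this
  have h1 : |(x0 : ℝ)| + |(k : ℝ)| ≤ 2 * |(k : ℝ)| * (p * Real.exp (B * (1 + Real.log p) ^ 2)) := by
    rcases le_or_gt |k| |x0| with h | h
    · have h2 := hB k hk x0 p hp hper hx00 (fun i => hmin _ (hZ.closed hx0 i)) h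
      have h3 : |(k : ℝ)| ≤ |(x0 : ℝ)| := by exact_mod_cast h
      calc |(x0 : ℝ)| + |(k : ℝ)| ≤ 2 * |(x0 : ℝ)| := by linarith
        _ ≤ 2 * (p * |(k : ℝ)| * Real.exp (B * (1 + Real.log p) ^ 2)) := by linarith
        _ = _ := by ring
    · have h3 : |(x0 : ℝ)| ≤ |(k : ℝ)| := by exact_mod_cast h.le
      have h4 : 1 ≤ p * Real.exp (B * (1 + Real.log p) ^ 2) := one_le_mul_of_one_le_of_one_le hpr hexp1
      nlinarith
  have h2 := Real.log_le_log (by linarith) h1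
  have hk2 : 2 * |(k : ℝ)| ≠ 0 := (show 0 < 2 * |(k : ℝ)| by linarith).ne'
  have hpe : (p : ℝ) * Real.exp (B * (1 + Real.log p) ^ 2) ≠ 0 := (mul_pos hp0 (Real.exp_pos _)).ne'
  rw [Real.log_mul hk2 hpe, Real.log_mul hp0.ne' (Real.exp_pos _).ne',
    Real.log_exp] at h2
  have h4 : Real.log (|(x0 : ℝ)| + 1) ≤ Real.log (|(x0 : ℝ)| + |(k : ℝ)|) :=
    Real.log_le_log (by linarith) (by linarith)
  refine h4.trans (h2.trans ?_)
  have h3 : Real.log p ≤ (1 + Real.log p) ^ 2 := by nlinarith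
  have h5 : 1 ≤ (1 + Real.log p) ^ 2 := by nlinarith
  have h6 : Real.log (2 * |(k : ℝ)|) ≤ Real.log (2 * |(k : ℝ)|) * (1 + Real.log p) ^ 2 :=
    le_mul_of_one_le_right hlk h5
  have e : (Real.log (2 * |(k : ℝ)|) + 1 + B) * (1 + Real.log p) ^ 2
      = Real.log (2 * |(k : ℝ)|) * (1 + Real.log p) ^ 2 + (1 + Real.log p) ^ 2
        + B * (1 + Real.log p) ^ 2 := by ring
  rw [e]
  linarith

lemma Tab_eq (a b : ℤ) : Tab a b = Tm a b := by
  funext x; simp [Tab, Tm]

/-- the words read along a cycle include the factors of the parity word -/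
lemma cf_le_words {a b : ℤ} {Z : Finset ℤ} (hZ : IsCyc (Tm a b) Z) {x : ℤ} (hx : x ∈ Z)
    (N m : ℕ) : cf (pw a b x) N m ≤ (words (Tm a b) Z m).card := by
  classical
  set g : (Fin m → ℤ) → (Fin m → Bool) := fun v j => decide (v j = 1) with hg
  have hsub : fac (pw a b x) m '' {i | i + m ≤ N} ⊆ ((words (Tm a b) Z m).image g : Set _) := by
    rintro _ ⟨i, _, rfl⟩
    rw [Finset.coe_image]
    refine ⟨fun j : Fin m => (Tm a b)^[(j : ℕ)] ((Tm a b)^[i] x) % 2, ?_, ?_⟩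
    · rw [Finset.mem_coe]
      unfold words
      rw [mem_image]
      exact ⟨_, hZ.closed hx i, rfl⟩
    · funext j
      simp only [hg, fac, pw, Tab_eq]
      have e : (Tm a b)^[(j : ℕ)] ((Tm a b)^[i] x) = (Tm a b)^[i + (j : ℕ)] x := by
        rw [← Function.iterate_add_apply, add_comm]
      exact decide_eq_decide.2 (by rw [e])
  unfold cf
  refine (Set.ncard_le_ncard hsub (Finset.finite_toSet _)).trans ?_
  rw [Set.ncard_coe_finset]
  exact Finset.card_image_le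

/-- **Cycles have superlinear complexity in every window of lengths.** -/
theorem cyc_main {q : ℕ} (hq : q.Prime) (hq2 : q ≠ 2) {k : ℤ} (hk : k % 2 = 1) (C : ℝ) :
    ∃ K : ℝ, 1 ≤ K ∧ ∀ Z : Finset ℤ, IsCyc (Tm q k) Z → ∀ L : ℝ,
      K * (1 + Real.log Z.card) ^ 2 ≤ L → K * L ≤ Z.card →
      ∃ n : ℕ, L ≤ n ∧ (n : ℝ) ≤ K * L ∧ C * n < ((words (Tm q k) Z n).card : ℝ) := by
  classical
  have hq1 : q % 2 = 1 := by
    rcases hq.eq_two_or_odd with h | h
    · exact absurd h hq2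
    · omega
  have hq3 : 3 ≤ q := by have := hq.two_le; omega
  obtain ⟨G, hG0, hG⟩ := min_log hq hq2 hk
  obtain ⟨K0, hK0⟩ := orbit hq1 hq3 hk C
  have hK0r : (0 : ℝ) ≤ K0 := by positivity
  refine ⟨2 * K0 + G + 2, by linarith, ?_⟩
  intro Z hZ L hL1 hL2
  have hp : 0 < Z.card := hZ.card_pos
  have hpr : (1 : ℝ) ≤ Z.card := by exact_mod_cast hp
  have hlp : 0 ≤ Real.log Z.card := Real.log_nonneg hpr
  obtain ⟨x0, hx0, hxl⟩ := hG Z hZ
  have hsq1 : 1 ≤ (1 + Real.log Z.card) ^ 2 := by nlinarith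
  have hL : 2 * K0 + G + 2 ≤ L := by nlinarith
  have hL0 : 1 ≤ L := by linarith
  obtain ⟨hmp, hZset⟩ := hZ.orbit hx0
  set s : ℕ := ⌈L⌉₊ with hs
  have hs1 : L ≤ s := Nat.le_ceil _
  have hs2 : (s : ℝ) < L + 1 := Nat.ceil_lt_add_one (by linarith)
  have hinj : ∀ i j, i < j → j ≤ Z.card - 1 → (Tab q k)^[i] x0 ≠ (Tab q k)^[j] x0 := by
    intro i j hij hj h
    rw [Tab_eq] at h
    have h1 : Set.InjOn (fun i => (Tm q k)^[i] x0) (Set.Iio Z.card) := by
      rw [← hmp]; exact Function.iterate_injOn_Iio_minimalPeriod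
    have := h1 (Set.mem_Iio.2 (by omega)) (Set.mem_Iio.2 (by omega)) h
    omega
  have hKs : K0 ≤ s := by
    have : (K0 : ℝ) ≤ s := by linarith
    exact_mod_cast this
  have hsN : K0 * s ≤ Z.card - 1 := by
    have h1 : ((K0 * s + 1 : ℕ) : ℝ) ≤ Z.card := by
      push_cast
      refine le_trans ?_ hL2
      have h2 : (K0 : ℝ) * s ≤ K0 * (L + 1) := by gcongr
      nlinarith
    have h3 : K0 * s + 1 ≤ Z.card := by exact_mod_cast h1
    omega
  have hxs : Real.log (|(x0 : ℝ)| + 1) ≤ s := by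
    refine hxl.trans (le_trans ?_ hs1)
    refine le_trans ?_ hL1
    gcongr
    linarith
  obtain ⟨m, hm1, hm2, hm3⟩ := hK0 x0 (Z.card - 1) s hinj hKs hsN hxs
  refine ⟨m, hs1.trans (by exact_mod_cast hm1), ?_, ?_⟩
  · have h1 : (m : ℝ) ≤ K0 * s := by exact_mod_cast hm2
    have h2 : (K0 : ℝ) * s ≤ K0 * (L + 1) := by gcongr
    nlinarith
  · refine hm3.trans_le ?_
    exact_mod_cast cf_le_words hZ hx0 _ m

/-- **Finiteness of the cycles of linear complexity.** -/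
theorem cyc_finite {q : ℕ} (hq : q.Prime) (hq2 : q ≠ 2) {k : ℤ} (hk : k % 2 = 1) (C : ℝ) :
    {Z : Finset ℤ | IsCyc (Tm q k) Z ∧
      ∀ n : ℕ, ((words (Tm q k) Z n).card : ℝ) ≤ C * n + C}.Finite := by
  classical
  obtain ⟨K, hK1, hK⟩ := cyc_main hq hq2 hk (2 * |C|)
  have hlim : ∀ᶠ x : ℝ in atTop, K * (K * (1 + Real.log x) ^ 2) < x := by
    have hlog2 : Tendsto (fun x : ℝ => (Real.log x) ^ 2 / x) atTop (nhds 0) := by
      have := (isLittleO_log_rpow_rpow_atTop (r := 2) (s := 1) (by norm_num) : _)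
      have h2 := this.tendsto_div_nhds_zero
      refine h2.congr' ?_
      filter_upwards [eventually_gt_atTop 0] with x hx
      simp
    have hlog1 : Tendsto (fun x : ℝ => Real.log x / x) atTop (nhds 0) :=
      Real.isLittleO_log_id_atTop.tendsto_div_nhds_zero
    have h1 : Tendsto (fun x : ℝ => (K * (K * (1 + Real.log x) ^ 2)) / x) atTop (nhds 0) := by
      have h2 : Tendsto (fun x : ℝ => K * K / x + K * K * 2 * (Real.log x / x) +
          K * K * ((Real.log x) ^ 2 / x)) atTop (nhds (0 + K * K * 2 * 0 + K * K * 0)) := by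
        apply Tendsto.add
        · apply Tendsto.add
          · exact Tendsto.div_atTop tendsto_const_nhds tendsto_id
          · exact Tendsto.const_mul _ hlog1
        · exact Tendsto.const_mul _ hlog2
      rw [mul_zero, mul_zero, add_zero, add_zero] at h2
      refine h2.congr' ?_
      filter_upwards [eventually_gt_atTop 0] with x hx
      field_simp
      ring
    filter_upwards [h1.eventually (gt_mem_nhds (show (0 : ℝ) < 1 by norm_num)), eventually_gt_atTop 0]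
      with x h3 h4
    rwa [div_lt_one h4] at h3
  obtain ⟨P1, hP1⟩ := eventually_atTop.1 hlim
  apply Set.Finite.subset (finite_of_card hq hq2 hk P1)
  rintro Z ⟨hZ, hw⟩
  refine ⟨hZ, ?_⟩
  by_contra hcon
  push Not at hcon
  have hp : (1 : ℝ) ≤ Z.card := by exact_mod_cast hZ.card_pos
  have hlp : 0 ≤ Real.log Z.card := Real.log_nonneg hp
  obtain ⟨n, h1, _, h3⟩ := hK Z hZ _ le_rfl (hP1 _ hcon.le).le
  have h4 := hw n
  have h5 : (1 : ℝ) ≤ n := by
    refine le_trans ?_ h1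
    have : 1 ≤ (1 + Real.log Z.card) ^ 2 := by nlinarith
    nlinarith
  have h6 := le_abs_self C
  have h7 := abs_nonneg C
  nlinarith

end Pool.Agent.TH796.F4
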