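import Mathlib
import Pool.Agent.TH796.F4.Cyc5

set_option autoImplicit false

/-!
# The `3x+1` function on the natural numbers: trajectories of low complexity
-/

namespace Pool.Agent.TH796.F4

open Pool.Agent.TH932.Words

/-- The `3x+1` function on the natural numbers. -/
def TN (n : ℕ) : ℕ := if n % 2 = 0 then n / 2 else (3 * n + 1) / 2

lemma TN_cast (n i : ℕ) : (Tab (3 : ℕ) 1)^[i] (n : ℤ) = ((TN^[i] n : ℕ) : ℤ) := by
  induction i with
  | zero => rfl
  | succ i ih =>
    rw [Function.iterate_succ_apply', ih, Function.iterate_succ_apply']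
    unfold Tab TN
    split_ifs <;> omega

lemma TN_pw (n i : ℕ) : pw (3 : ℕ) 1 (n : ℤ) i = decide (TN^[i] n % 2 = 1) := by
  unfold pw
  rw [TN_cast]
  exact decide_eq_decide.2 (by omega)

/-- the different words of length `m` in the word of the first `N` parities of `n` -/
def facN (n N m : ℕ) : Finset (Fin m → ℕ) :=
  ((Finset.range (N + 1)).filter fun i => i + m ≤ N).image
    fun i => fun j : Fin m => TN^[i + j] n % 2

lemma cf_le_facN (n N m : ℕ) : cf (pw (3 : ℕ) 1 (n : ℤ)) N m ≤ (facN n N m).card := by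
  classical
  set g : (Fin m → ℕ) → (Fin m → Bool) := fun v j => decide (v j = 1) with hg
  have hsub : fac (pw (3 : ℕ) 1 (n : ℤ)) m '' {i | i + m ≤ N} ⊆ ((facN n N m).image g : Set _) := by
    rintro _ ⟨i, hi, rfl⟩
    rw [Set.mem_ofPred_eq] at hi
    rw [Finset.coe_image]
    refine ⟨fun j : Fin m => TN^[i + j] n % 2, ?_, ?_⟩
    · rw [Finset.mem_coe]
      unfold facN
      rw [Finset.mem_image]
      refine ⟨i, ?_, rfl⟩
      rw [Finset.mem_filter, Finset.mem_range]
      omega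
    · funext j
      simp only [hg, fac, TN_pw]
  unfold cf
  refine (Set.ncard_le_ncard hsub (Finset.finite_toSet _)).trans ?_
  rw [Set.ncard_coe_finset]
  exact Finset.card_image_le

lemma facN_mono {n N N' m : ℕ} (h : N ≤ N') : (facN n N m).card ≤ (facN n N' m).card := by
  classical
  apply Finset.card_le_card
  unfold facN
  apply Finset.image_subset_image
  intro i
  simp only [Finset.mem_filter, Finset.mem_range]
  omega

/-- **Dichotomy.** -/
theorem dich (C : ℝ) : ∃ K : ℝ, 1 ≤ K ∧ ∀ n : ℕ, 2 ≤ n →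
    (∃ i j : ℕ, i < j ∧ (j : ℝ) ≤ K * Real.log n ∧ TN^[i] n = TN^[j] n) ∨
    (∃ m : ℕ, Real.log n ≤ m ∧ (m : ℝ) ≤ K * Real.log n ∧
      C * m < (facN n ⌊K * Real.log n⌋₊ m).card) := by
  obtain ⟨K0, hK0⟩ := orbit (a := 3) (by norm_num) (by norm_num) (b := 1) (by norm_num) C
  have hl2 : 0 < Real.log 2 := Real.log_pos (by norm_num)
  have hl21 : Real.log 2 < 1 := by have := Real.log_two_lt_d9; linarith
  have hK0r : (0 : ℝ) ≤ K0 := by positivity
  set c1 : ℝ := (K0 + 2) / Real.log 2 with hc1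
  have hc12 : (K0 : ℝ) + 2 ≤ c1 := by
    rw [hc1, le_div_iff₀ hl2]
    nlinarith
  refine ⟨K0 * c1 + c1, by nlinarith, ?_⟩
  intro n hn
  have hnR : (2 : ℝ) ≤ n := by exact_mod_cast hn
  have hln : Real.log 2 ≤ Real.log n := Real.log_le_log (by norm_num) hnR
  have hln0 : 0 < Real.log n := by linarith
  have hc1l : (K0 : ℝ) + 2 ≤ c1 * Real.log n := by
    have h1 : c1 * Real.log 2 = K0 + 2 := by rw [hc1]; field_simp
    have : c1 * Real.log 2 ≤ c1 * Real.log n := by gcongr
    linarith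
  set s : ℕ := ⌈c1 * Real.log n⌉₊ with hs
  have hs1 : c1 * Real.log n ≤ s := Nat.le_ceil _
  have hs2 : (s : ℝ) < c1 * Real.log n + 1 := Nat.ceil_lt_add_one (by linarith)
  set N : ℕ := ⌊(K0 * c1 + c1) * Real.log n⌋₊ with hN
  have hNle : (N : ℝ) ≤ (K0 * c1 + c1) * Real.log n := Nat.floor_le (by positivity)
  have hsN : K0 * s ≤ N := by
    apply Nat.le_floor
    push_cast
    have h2 : (K0 : ℝ) * s ≤ K0 * (c1 * Real.log n + 1) := by gcongr
    nlinarith
  by_cases hinj : ∀ i j, i < j → j ≤ N → (Tab (3 : ℕ) 1)^[i] (n : ℤ) ≠ (Tab (3 : ℕ) 1)^[j] (n : ℤ)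
  · right
    have hKs : K0 ≤ s := by
      have : (K0 : ℝ) ≤ s := by linarith
      exact_mod_cast this
    have hxs : Real.log (|((n : ℤ) : ℝ)| + 1) ≤ s := by
      refine le_trans ?_ hs1
      rw [Int.cast_natCast, abs_of_nonneg (by positivity)]
      have h1 : Real.log ((n : ℝ) + 1) ≤ Real.log ((n : ℝ) ^ 2) :=
        Real.log_le_log (by positivity) (by nlinarith)
      rw [Real.log_pow] at h1
      push_cast at h1
      have h2 : 2 * Real.log n ≤ c1 * Real.log n := by
        gcongr; linarith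
      linarith
    obtain ⟨m, hm1, hm2, hm3⟩ := hK0 n N s hinj hKs hsN hxs
    have hmN : m ≤ N := hm2.trans hsN
    refine ⟨m, ?_, ?_, ?_⟩
    · have h1 : (s : ℝ) ≤ m := by exact_mod_cast hm1
      have h2 : 1 * Real.log n ≤ c1 * Real.log n := by
        gcongr; linarith
      linarith
    · have h1 : (m : ℝ) ≤ N := by exact_mod_cast hmN
      linarith
    · refine hm3.trans_le ?_
      exact_mod_cast cf_le_facN n N m
  · left
    push Not at hinj
    obtain ⟨i, j, hij, hj, h⟩ := hinj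
    refine ⟨i, j, hij, ?_, ?_⟩
    · have : (j : ℝ) ≤ N := by exact_mod_cast hj
      linarith
    · rw [TN_cast, TN_cast] at h
      exact_mod_cast h

/-- a trajectory which reaches `1` for the first time at `σ` has no repetition before -/
lemma no_rep {n σ i j : ℕ} (h1 : TN^[σ] n = 1) (h2 : ∀ k < σ, TN^[k] n ≠ 1) (hij : i < j)
    (hj : j ≤ σ) : TN^[i] n ≠ TN^[j] n := by
  intro h
  apply h2 (σ - (j - i)) (by omega)
  have e1 : TN^[σ] n = TN^[σ - j] (TN^[j] n) := by
    rw [← Function.iterate_add_apply]; congr 2; omega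
  have e2 : TN^[σ - (j - i)] n = TN^[σ - j] (TN^[i] n) := by
    rw [← Function.iterate_add_apply]; congr 2; omega
  rw [e2, h, ← e1, h1]

/-- **Stopping times of trajectories of low complexity.** -/
theorem stop {C K : ℝ} (hK1 : 1 ≤ K) (hK : ∀ n : ℕ, 2 ≤ n →
    (∃ i j : ℕ, i < j ∧ (j : ℝ) ≤ K * Real.log n ∧ TN^[i] n = TN^[j] n) ∨
    (∃ m : ℕ, Real.log n ≤ m ∧ (m : ℝ) ≤ K * Real.log n ∧
      C * m < (facN n ⌊K * Real.log n⌋₊ m).card)) : ∀ n : ℕ, 2 ≤ n → ∀ σ : ℕ, TN^[σ] n = 1 →
    (∀ k < σ, TN^[k] n ≠ 1) →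
    (∀ m : ℕ, Real.log n ≤ m → m ≤ σ → ((facN n σ m).card : ℝ) ≤ C * m) →
    (σ : ℝ) ≤ K * Real.log n := by
  intro n hn σ h1 h2 h3
  by_contra hcon
  push Not at hcon
  have hln0 : 0 ≤ Real.log n := Real.log_nonneg (by exact_mod_cast (by omega : 1 ≤ n))
  rcases hK n hn with ⟨i, j, hij, hj, h4⟩ | ⟨m, hm1, hm2, hm3⟩
  · have hjσ : (j : ℝ) < σ := hj.trans_lt hcon
    exact no_rep h1 h2 hij (by have : j < σ := by exact_mod_cast hjσ
                               omega) h4
  · have hmσ : m ≤ σ := by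
      have : (m : ℝ) < σ := hm2.trans_lt hcon
      have : m < σ := by exact_mod_cast this
      omega
    have h4 := h3 m hm1 hmσ
    have h5 : ⌊K * Real.log n⌋₊ ≤ σ := by
      have h6 : (⌊K * Real.log n⌋₊ : ℝ) ≤ K * Real.log n := Nat.floor_le (by positivity)
      have : (⌊K * Real.log n⌋₊ : ℝ) < σ := h6.trans_lt hcon
      have : ⌊K * Real.log n⌋₊ < σ := by exact_mod_cast this
      omega
    have h6 : ((facN n ⌊K * Real.log n⌋₊ m).card : ℝ) ≤ (facN n σ m).card := by
      exact_mod_cast facN_mono h5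
    linarith

/-- the different words of length `m` in the infinite parity word of `n` -/
def facI (n m : ℕ) : Set (Fin m → ℕ) := Set.range fun i : ℕ => fun j : Fin m => TN^[i + j] n % 2

lemma facI_finite (n m : ℕ) : (facI n m).Finite := by
  apply Set.Finite.subset (Set.Finite.pi' fun _ : Fin m => (Set.finite_Iio 2 : (Set.Iio 2).Finite))
  rintro _ ⟨i, rfl⟩
  intro j
  exact Nat.mod_lt _ (by norm_num)

lemma facN_le_facI (n N m : ℕ) : (facN n N m).card ≤ (facI n m).ncard := by
  classical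
  rw [← Set.ncard_coe_finset]
  apply Set.ncard_le_ncard _ (facI_finite n m)
  intro v hv
  rw [Finset.mem_coe] at hv
  unfold facN at hv
  rw [Finset.mem_image] at hv
  obtain ⟨i, _, rfl⟩ := hv
  exact ⟨i, rfl⟩

lemma TN_cast' (n i : ℕ) :
    (Pool.Agent.H547R3.Sub.Tm (3 : ℕ) 1)^[i] (n : ℤ) = ((TN^[i] n : ℕ) : ℤ) := by
  rw [← Tab_eq]; exact TN_cast n i

open Pool.Agent.W42.CpxG in
/-- **Trajectories of low complexity reach a finite set of periodic points fast.** -/
theorem reach {C K : ℝ} (hK : ∀ n : ℕ, 2 ≤ n →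
    (∃ i j : ℕ, i < j ∧ (j : ℝ) ≤ K * Real.log n ∧ TN^[i] n = TN^[j] n) ∨
    (∃ m : ℕ, Real.log n ≤ m ∧ (m : ℝ) ≤ K * Real.log n ∧
      C * m < (facN n ⌊K * Real.log n⌋₊ m).card)) :
    ∃ (F : Finset ℕ), (∀ y ∈ F, ∃ p, 1 ≤ p ∧ TN^[p] y = y) ∧
    ∀ n : ℕ, 2 ≤ n → (∀ m : ℕ, 1 ≤ m → ((facI n m).ncard : ℝ) ≤ C * m) →
      ∃ k : ℕ, (k : ℝ) ≤ K * Real.log n ∧ TN^[k] n ∈ F := by
  classical
  have hS := cyc_finite (q := 3) Nat.prime_three (by norm_num) (k := 1) (by norm_num) (|C| + 1)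
  set S := hS.toFinset with hSd
  refine ⟨(S.biUnion id).image Int.toNat, ?_, ?_⟩
  · intro y hy
    rw [Finset.mem_image] at hy
    obtain ⟨z, hz, rfl⟩ := hy
    rw [Finset.mem_biUnion] at hz
    obtain ⟨Z, hZS, hzZ⟩ := hz
    rw [hSd, Set.Finite.mem_toFinset] at hZS
    obtain ⟨hZ, _⟩ := hZS
    rcases le_or_gt 0 z with h0 | h0
    · refine ⟨Z.card, hZ.card_pos, ?_⟩
      obtain ⟨h1, _⟩ := hZ.orbit hzZ
      have h2 : (Pool.Agent.H547R3.Sub.Tm (3 : ℕ) 1)^[Z.card] z = z := by
        rw [← h1]; exact Function.iterate_minimalPeriod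
      have h3 := TN_cast' z.toNat Z.card
      rw [Int.toNat_of_nonneg h0, h2] at h3
      have h4 : ((TN^[Z.card] z.toNat : ℕ) : ℤ) = (z.toNat : ℤ) := by
        rw [← h3, Int.toNat_of_nonneg h0]
      exact_mod_cast h4
    · refine ⟨1, le_rfl, ?_⟩
      rw [Int.toNat_of_nonpos h0.le]
      simp [TN]
  · intro n hn hC
    have hln0 : 0 < Real.log n := Real.log_pos (by exact_mod_cast (by omega : 1 < n))
    rcases hK n hn with ⟨i, j, hij, hj, h⟩ | ⟨m, hm1, _, hm3⟩
    · refine ⟨i, ?_, ?_⟩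
      · have : (i : ℝ) ≤ j := by exact_mod_cast hij.le
        linarith
      · rw [Finset.mem_image]
        refine ⟨((TN^[i] n : ℕ) : ℤ), ?_, by simp⟩
        rw [Finset.mem_biUnion]
        set y := TN^[i] n with hy
        set Z : Finset ℤ := (Finset.range (j - i)).image
          fun t => (Pool.Agent.H547R3.Sub.Tm (3 : ℕ) 1)^[t] (y : ℤ) with hZd
        have hper' : TN^[j - i] y = y := by
          have e : TN^[j - i] (TN^[i] n) = TN^[j] n := by
            rw [← Function.iterate_add_apply, show j - i + i = j by omega]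
          exact e.trans h.symm
        have hper : (Pool.Agent.H547R3.Sub.Tm (3 : ℕ) 1)^[j - i] (y : ℤ) = y := by
          rw [TN_cast', hper']
        have hZ : IsCyc (Pool.Agent.H547R3.Sub.Tm (3 : ℕ) 1) Z := ⟨y, j - i, by omega, hper, rfl⟩
        refine ⟨Z, ?_, ?_⟩
        · rw [hSd, Set.Finite.mem_toFinset]
          refine ⟨hZ, fun m => ?_⟩
          have h1 : ((words (Pool.Agent.H547R3.Sub.Tm (3 : ℕ) 1) Z m).card) ≤ (facI n m).ncard := by
            set g : (Fin m → ℕ) → (Fin m → ℤ) := fun v t => (v t : ℤ) with hg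
            rw [← Set.ncard_coe_finset]
            refine (Set.ncard_le_ncard (t := g '' facI n m) ?_ ((facI_finite n m).image _)).trans
              (Set.ncard_image_le (facI_finite n m))
            intro v hv
            rw [Finset.mem_coe] at hv
            unfold words at hv
            rw [Finset.mem_image] at hv
            obtain ⟨x, hx, rfl⟩ := hv
            rw [hZd, Finset.mem_image] at hx
            obtain ⟨t, _, rfl⟩ := hx
            refine ⟨fun r : Fin m => TN^[(t + i) + r] n % 2, ⟨t + i, rfl⟩, ?_⟩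
            funext r
            simp only [hg]
            have e : (Pool.Agent.H547R3.Sub.Tm (3 : ℕ) 1)^[(r : ℕ)]
                ((Pool.Agent.H547R3.Sub.Tm (3 : ℕ) 1)^[t] (y : ℤ)) = ((TN^[(t + i) + r] n : ℕ) : ℤ) := by
              rw [← Function.iterate_add_apply, TN_cast', hy, ← Function.iterate_add_apply,
                show (r : ℕ) + t + i = (t + i) + r by ring]
            rw [e]
            push_cast
            rfl
          have h2 : ((words (Pool.Agent.H547R3.Sub.Tm (3 : ℕ) 1) Z m).card : ℝ)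
              ≤ (facI n m).ncard := by exact_mod_cast h1
          rcases Nat.eq_zero_or_pos m with h0 | h0
          · subst h0
            have h3 : (words (Pool.Agent.H547R3.Sub.Tm (3 : ℕ) 1) Z 0).card ≤ 1 := by
              refine (Finset.card_le_univ _).trans ?_
              simp
            have h4 : ((words (Pool.Agent.H547R3.Sub.Tm (3 : ℕ) 1) Z 0).card : ℝ) ≤ 1 := by
              exact_mod_cast h3
            have := abs_nonneg C
            simp only [Nat.cast_zero, mul_zero, zero_add]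
            linarith
          · have h3 := hC m h0
            have h4 := le_abs_self C
            have h5 : C * m ≤ (|C| + 1) * m := by gcongr; linarith
            have h6 := abs_nonneg C
            linarith
        · show (y : ℤ) ∈ Z
          rw [hZd, Finset.mem_image]
          exact ⟨0, Finset.mem_range.2 (by omega), rfl⟩
    · exfalso
      have hm : 1 ≤ m := by
        by_contra h
        have : m = 0 := by omega
        rw [this] at hm1
        simp only [Nat.cast_zero] at hm1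
        linarith
      have h1 := hC m hm
      have h2 : ((facN n ⌊K * Real.log n⌋₊ m).card : ℝ) ≤ (facI n m).ncard := by
        exact_mod_cast facN_le_facI n _ m
      linarith

/-- the three statements together -/
theorem all (C : ℝ) : ∃ K : ℝ, 1 ≤ K ∧ ∃ F : Finset ℕ, (∀ y ∈ F, ∃ p, 1 ≤ p ∧ TN^[p] y = y) ∧
    ∀ n : ℕ, 2 ≤ n →
      ((∃ i j : ℕ, i < j ∧ (j : ℝ) ≤ K * Real.log n ∧ TN^[i] n = TN^[j] n) ∨
        (∃ m : ℕ, Real.log n ≤ m ∧ (m : ℝ) ≤ K * Real.log n ∧
          C * m < (facN n ⌊K * Real.log n⌋₊ m).card)) ∧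
      (∀ σ : ℕ, TN^[σ] n = 1 → (∀ k < σ, TN^[k] n ≠ 1) →
        (∀ m : ℕ, Real.log n ≤ m → m ≤ σ → ((facN n σ m).card : ℝ) ≤ C * m) →
        (σ : ℝ) ≤ K * Real.log n) ∧
      ((∀ m : ℕ, 1 ≤ m → ((facI n m).ncard : ℝ) ≤ C * m) →
        ∃ k : ℕ, (k : ℝ) ≤ K * Real.log n ∧ TN^[k] n ∈ F) := by
  obtain ⟨K, hK1, hK⟩ := dich C
  obtain ⟨F, hF, hreach⟩ := reach hK
  exact ⟨K, hK1, F, hF, fun n hn => ⟨hK n hn, stop hK1 hK n hn, hreach n hn⟩⟩

end Pool.Agent.TH796.F4
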